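import Mathlib

set_option autoImplicit false

/-!
# Theorem L: finitely generated additive groups

PROOF. `fg_mono`: `AddSubgroup.fg_iff_...`: pass to `ℤ`-submodules (`AddSubgroup.toIntSubmodule`, `Submodule.fg_iff_addSubgroup_fg`); `V` is a finitely generated module over the noetherian ring `ℤ`, so
noetherian (`isNoetherian_of_isNoetherianRing_of_finite`, `Submodule.FG` of `W` as a submodule of `V`: `Submodule.fg_of_le`-like, `Submodule.FG.of_le`). `fg_comap`: `V.comap f` is isomorphic through `f` to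
`V ⊓ f.range ≤ V` (`Submodule.fg_of_fg_map_injective`). `fg_conj`: `V' = ⨆` of the finitely many images of `V` under `x ↦ a x`, `a` an entry product of `P` and `Q`
(`AddSubgroup.FG.sup`/`Submodule.fg_iSup`/`Submodule.fg_finset_sup`; images: `AddSubgroup.FG.map`); `(P s Q) l j = ∑ P l a * s a b * Q b j`.
`fg_free`: a finitely generated torsion-free abelian group is `ℤ^n`: `Module.basisOfFiniteTypeTorsionFree'`, `Basis.equivFun`.
`fg_span_mat`: the additive group generated by a set of matrices with entries in `V` is contained in the matrices with entries in `V`, isomorphic to `Fin 2 → Fin 2 → V` (`Module.Finite.pi`), `fg_mono`.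
-/

namespace Pool.Agent.Lib.LinQ

private theorem Ab_map {A B : Type} [AddCommGroup A] [AddCommGroup B] (f : A →+ B)
    {V : AddSubgroup A} (hV : V.FG) : (V.map f).FG := by
  classical
  obtain ⟨S, hS⟩ := hV
  exact ⟨S.image f, by rw [Finset.coe_image, ← AddMonoidHom.map_closure, hS]⟩

theorem fg_mono {A : Type} [AddCommGroup A] {V W : AddSubgroup A} (hV : V.FG) (h : W ≤ V) : W.FG := by
  rw [← V.toIntSubmodule_toAddSubgroup, ← Submodule.fg_iff_addSubgroup_fg] at hV
  rw [← W.toIntSubmodule_toAddSubgroup, ← Submodule.fg_iff_addSubgroup_fg]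
  exact Submodule.FG.of_le hV h

theorem fg_comap {A B : Type} [AddCommGroup A] [AddCommGroup B] (f : A →+ B)
    (hf : Function.Injective f) {V : AddSubgroup B} (hV : V.FG) : (V.comap f).FG := by
  have h1 : ((V.comap f).map f).FG := fg_mono hV (AddSubgroup.map_comap_le f V)
  have h2 : AddGroup.FG ((V.comap f).map f) := (AddGroup.fg_iff_addSubgroup_fg _).2 h1
  have h3 : AddGroup.FG (V.comap f) := AddGroup.fg_of_surjective
    (f := ((V.comap f).equivMapOfInjective f hf).symm.toAddMonoidHom)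
    ((V.comap f).equivMapOfInjective f hf).symm.surjective
  exact (AddGroup.fg_iff_addSubgroup_fg _).1 h3

theorem fg_conj {F : Type} [Field F] (P Q : Matrix (Fin 2) (Fin 2) F) {V : AddSubgroup F}
    (hV : V.FG) : ∃ V' : AddSubgroup F, V'.FG ∧ ∀ s : Matrix (Fin 2) (Fin 2) F,
      (∀ l j, s l j ∈ V) → ∀ l j, (P * s * Q) l j ∈ V' := by
  refine ⟨⨆ i : Fin 2 × Fin 2 × Fin 2 × Fin 2,
    V.map (AddMonoidHom.mulLeft (P i.1 i.2.1 * Q i.2.2.1 i.2.2.2)),
    AddSubgroup.FG.iSup _ fun i => Ab_map _ hV, ?_⟩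
  intro s hs l j
  rw [Matrix.mul_apply]
  refine AddSubgroup.sum_mem _ fun b _ => ?_
  rw [Matrix.mul_apply, Finset.sum_mul]
  refine AddSubgroup.sum_mem _ fun a _ => ?_
  refine AddSubgroup.mem_iSup_of_mem (l, a, b, j) ?_
  refine ⟨s a b, hs a b, ?_⟩
  show P l a * Q b j * s a b = _
  ring

theorem fg_free {A : Type} [AddCommGroup A] {V : AddSubgroup A} (hV : V.FG)
    (tf : ∀ (n : ℤ) (a : A), n ≠ 0 → n • a = 0 → a = 0) :
    ∃ (n : ℕ) (e : V →+ (Fin n → ℤ)), Function.Injective e := by
  have h1 : AddGroup.FG V := (AddGroup.fg_iff_addSubgroup_fg _).2 hV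
  have h2 : Module.Finite ℤ V := Module.Finite.iff_addGroup_fg.2 h1
  have h3 : Module.IsTorsionFree ℤ V := by
    refine ⟨fun n hn a b hab => ?_⟩
    have hn' : n ≠ 0 := hn.ne_zero
    have h4 : n • ((a : A) - b) = 0 := by
      have h5 : (n • a : V) = n • b := hab
      have h6 := congrArg (Subtype.val : V → A) h5
      rw [AddSubgroup.coe_zsmul, AddSubgroup.coe_zsmul] at h6
      rw [smul_sub, h6, sub_self]
    exact Subtype.ext (sub_eq_zero.1 (tf n _ hn' h4))
  obtain ⟨n, b⟩ := Module.basisOfFiniteTypeTorsionFree' (R := ℤ) (M := V)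
  exact ⟨n, b.equivFun.toLinearMap.toAddMonoidHom, b.equivFun.injective⟩

theorem fg_span_mat {F : Type} [Field F] {V : AddSubgroup F} (hV : V.FG)
    (S : Set (Matrix (Fin 2) (Fin 2) F)) (h : ∀ s ∈ S, ∀ l j, s l j ∈ V) :
    (AddSubgroup.closure S).FG := by
  have h1 : (AddSubgroup.pi Set.univ fun _ : Fin 2 => AddSubgroup.pi Set.univ
      fun _ : Fin 2 => V).FG := AddSubgroup.FG.pi fun _ => AddSubgroup.FG.pi fun _ => hV
  let g : (Fin 2 → Fin 2 → F) →+ Matrix (Fin 2) (Fin 2) F :=
    { toFun := fun x => Matrix.of x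
      map_zero' := rfl
      map_add' := fun _ _ => rfl }
  refine fg_mono (Ab_map g h1) ?_
  rw [AddSubgroup.closure_le]
  intro s hs
  exact ⟨fun l j => s l j, fun l _ j _ => h s hs l j, rfl⟩

end Pool.Agent.Lib.LinQ
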