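import Pool.Agent.Lib.SLT.ZDefs

set_option autoImplicit false

/-!
# Theorem L (MP_16fe43_al): definitions

`QPlace F`: a valuation ring of the field `F` with residue field `ℚ` (a place of `F` with values in `ℚ ∪ {∞}`).
`PlcZ A`: finitely many discrete places such that, for each bound, the elements of `A` bounded at all of them are in a
finitely generated additive group. `PZ ρ`: actions on finitely many trees such that the entries of the matrices of the
elements fixing given vertices are in a finitely generated additive group. `BdS S`: the entries of the matrices of the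
group `S` are in a finitely generated additive group.
-/

namespace Pool.Agent.Lib.LinQ

open Pool.Agent.Lib.SLT
open scoped MatrixGroups

/-- a place of `F` with values in `ℚ ∪ {∞}` -/
def QPlace (F : Type) [Field F] : Prop :=
  ∃ (O : ValuationSubring F) (π : O →+* ℚ), ∀ x : O, π x ≠ 0 → IsUnit x

/-- finitely many discrete places such that the bounded elements of `A` are in a finitely generated group -/
def PlcZ {E : Type} [Field E] (A : Subring E) : Prop :=
  ∃ (n : ℕ) (O : Fin n → Subring E) (c : Fin n → Eˣ), (∀ i, DVal (O i) (c i)) ∧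
    ∀ N : ℕ, ∃ V : AddSubgroup E, V.FG ∧ ∀ a ∈ A, (∀ i, (c i : E) ^ N * a ∈ O i) → a ∈ V

/-- `K` acts on finitely many trees, and the entries of the elements which fix given vertices `x i` are in a
finitely generated additive group -/
def PZ {K F : Type} [Group K] [Field F] (ρ : K →* GL (Fin 2) F) : Prop :=
  ∃ (ι : Type) (_ : Finite ι) (X : ι → Type) (T : ∀ i, SimpleGraph (X i))
    (_ : ∀ i, MulAction K (X i)), (∀ i, (T i).IsTree) ∧
    (∀ (i : ι) (g : K) (u v : X i), (T i).Adj u v → (T i).Adj (g • u) (g • v)) ∧
    ∀ x : ∀ i, X i, ∃ V : AddSubgroup F, V.FG ∧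
      ∀ g : K, (∀ i, g • x i = x i) → ∀ l j, (ρ g : Matrix (Fin 2) (Fin 2) F) l j ∈ V

/-- the entries of the elements of `S` are in a finitely generated additive group -/
def BdS {F : Type} [Field F] (S : Subgroup (GL (Fin 2) F)) : Prop :=
  ∃ V : AddSubgroup F, V.FG ∧ ∀ s ∈ S, ∀ l j, (s : Matrix (Fin 2) (Fin 2) F) l j ∈ V

end Pool.Agent.Lib.LinQ
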