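import Pool.Agent.Lib.PrD.DegVal
import Pool.Agent.Lib.LinQ.Ab

set_option autoImplicit false

/-!
# Theorem L: the degree valuation over `ℤ`

PROOF. As in `Pool/Agent/Lib/PrD/DegVal.lean` with `ℤ` in place of the field `F` (`totalDegree_mul_of_isDomain` needs a domain only). `fg_degZ`: `restrictTotalDegree (Fin d) ℤ N` is spanned by the finitely many monomials of degree `≤ N`
(`MvPolynomial.restrictTotalDegree`, `basisRestrictSupport`/`Finsupp.supported`, finite index set) - or: the additive group generated by the finite set of the monomials `monomial s 1`, `s.degree ≤ N`.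
-/

namespace Pool.Agent.Lib.LinQ

open WithZero MvPolynomial

private noncomputable def DegZ_degV (σ : Type) : Valuation (MvPolynomial σ ℤ) ℤᵐ⁰ := by
  classical
  exact
  { toFun := fun b => if b = 0 then 0 else exp (b.totalDegree : ℤ)
    map_zero' := if_pos rfl
    map_one' := by simp
    map_mul' := by
      intro a b
      by_cases ha : a = 0
      · simp [ha]
      by_cases hb : b = 0
      · simp [hb]
      rw [if_neg ha, if_neg hb, if_neg (mul_ne_zero ha hb), totalDegree_mul_of_isDomain ha hb,
        ← exp_add, Nat.cast_add]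
    map_add_le_max' := by
      intro a b
      by_cases hab : a + b = 0
      · simp [hab]
      by_cases ha : a = 0
      · simp [ha]
      by_cases hb : b = 0
      · simp [hb]
      rw [if_neg ha, if_neg hb, if_neg hab]
      have h := totalDegree_add a b
      rcases le_max_iff.1 h with h | h
      · exact le_max_of_le_left (exp_le_exp.2 (by exact_mod_cast h))
      · exact le_max_of_le_right (exp_le_exp.2 (by exact_mod_cast h)) }

private theorem DegZ_degV_apply (σ : Type) {b : MvPolynomial σ ℤ} (hb : b ≠ 0) :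
    DegZ_degV σ b = exp (b.totalDegree : ℤ) := by
  classical
  exact if_neg hb

theorem exists_degZ (σ K : Type) [Field K] [Algebra (MvPolynomial σ ℤ) K]
    [IsFractionRing (MvPolynomial σ ℤ) K] : ∃ v : Valuation K ℤᵐ⁰,
      ∀ b : MvPolynomial σ ℤ, b ≠ 0 → v (algebraMap _ K b) = exp (b.totalDegree : ℤ) := by
  have hS : nonZeroDivisors (MvPolynomial σ ℤ) ≤ (DegZ_degV σ).supp.primeCompl := by
    intro b hb hb2
    have hb0 := nonZeroDivisors.ne_zero hb
    have : DegZ_degV σ b = 0 := hb2
    rw [DegZ_degV_apply σ hb0] at this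
    exact exp_ne_zero this
  refine ⟨(DegZ_degV σ).extendToLocalization hS K, fun b hb => ?_⟩
  rw [Valuation.extendToLocalization_apply_map_apply, DegZ_degV_apply σ hb]

theorem fg_degZ (d N : ℕ) : ∃ V : AddSubgroup (MvPolynomial (Fin d) ℤ), V.FG ∧
    ∀ b : MvPolynomial (Fin d) ℤ, b.totalDegree ≤ N → b ∈ V := by
  classical
  have hfin : {s : Fin d →₀ ℕ | (s.sum fun _ e => e) ≤ N}.Finite := by
    have hf : (Set.univ : Set (Fin d → Fin (N + 1))).Finite := Set.finite_univ
    refine (hf.image (fun f => Finsupp.equivFunOnFinite.symm (fun i => (f i : ℕ)))).subset ?_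
    intro s hs
    have hs' : (s.sum fun _ e => e) ≤ N := hs
    have hle : ∀ i, s i ≤ N := by
      intro i
      refine le_trans ?_ hs'
      rw [Finsupp.sum_fintype _ _ (fun _ => rfl)]
      exact Finset.single_le_sum (f := fun i => s i) (fun _ _ => Nat.zero_le _) (Finset.mem_univ i)
    refine ⟨fun i => ⟨s i, Nat.lt_succ_of_le (hle i)⟩, Set.mem_univ _, ?_⟩
    ext i
    simp
  refine ⟨AddSubgroup.closure ((fun s => monomial s (1 : ℤ)) ''
    {s : Fin d →₀ ℕ | (s.sum fun _ e => e) ≤ N}), ?_, ?_⟩
  · refine (AddSubgroup.fg_iff _).2 ⟨_, rfl, hfin.image _⟩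
  · intro b hb
    rw [b.as_sum]
    refine AddSubgroup.sum_mem _ fun s hs => ?_
    have h1 : monomial s (b.coeff s) = b.coeff s • monomial s (1 : ℤ) := by
      rw [smul_monomial, smul_eq_mul, mul_one]
    have h2 : monomial s (1 : ℤ) ∈ ((fun s => monomial s (1 : ℤ)) ''
        {s : Fin d →₀ ℕ | (s.sum fun _ e => e) ≤ N}) := ⟨s, (le_totalDegree hs).trans hb, rfl⟩
    rw [h1]
    exact AddSubgroup.zsmul_mem _ (AddSubgroup.subset_closure h2) _

end Pool.Agent.Lib.LinQ
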