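import Pool.Agent.Lib.LinQ.Defs
import Pool.Agent.Lib.LinQ.Ab

set_option autoImplicit false

/-!
# Theorem L: bounded subgroups of `GL₂(ℚ)` embed in `GL₂(ℤ)`

PROOF. The `ℤ`-submodule `L` of `Fin 2 → ℚ` generated by the columns `s e_j`, `s ∈ S`, is finitely generated (contained in `{v | v 0, v 1 ∈ V}`), contains `e_0, e_1` and is preserved by `S`. The proof of the private theorem
`dInt_rho` in `Pool/Agent/Lib/SLT/DInt.lean` (copy it, with `K = ℚ`) gives a basis of `L` with two elements and the homomorphism to `GL (Fin 2) ℤ`; it is injective, as the basis of `L` is a basis of `ℚ²`.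
-/

namespace Pool.Agent.Lib.LinQ

open scoped MatrixGroups

private theorem toZ_rho (S : Subgroup (GL (Fin 2) ℚ)) (L : Submodule ℤ (Fin 2 → ℚ)) (fg : L.FG)
    (span : Submodule.span ℚ (L : Set (Fin 2 → ℚ)) = ⊤)
    (pres : ∀ g ∈ S, ∀ v ∈ L, (g : Matrix (Fin 2) (Fin 2) ℚ).mulVec v ∈ L) :
    ∃ f : S →* GL (Fin 2) ℤ, Function.Injective f := by
  classical
  have hfin : Module.Finite ℤ L := Module.Finite.iff_fg.2 fg
  have hsm : ∀ (n : ℤ) (v : Fin 2 → ℚ), n • v = (n : ℚ) • v := fun n v => by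
    rw [Int.cast_smul_eq_zsmul]
  have htf : Module.IsTorsionFree ℤ L := by
    have h1 : Module.IsTorsionFree ℤ (Fin 2 → ℚ) := inferInstance
    infer_instance
  let B0 := Module.basisOfFiniteTypeTorsionFree' (R := ℤ) (M := L)
  obtain ⟨n, B⟩ := B0
  have hli : LinearIndependent ℤ (fun i => (B i : Fin 2 → ℚ)) := by
    have h1 := B.linearIndependent
    exact h1.map' L.subtype (Submodule.ker_subtype L)
  have hliK : LinearIndependent ℚ (fun i => (B i : Fin 2 → ℚ)) :=
    (LinearIndependent.iff_fractionRing ℤ ℚ).1 hli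
  have hmemspan : ∀ v ∈ L, v ∈ Submodule.span ℚ (Set.range fun i => (B i : Fin 2 → ℚ)) := by
    intro v hv
    have h1 : (⟨v, hv⟩ : L) = ∑ i, B.repr ⟨v, hv⟩ i • B i := (B.sum_repr _).symm
    have h2 : v = ∑ i, B.repr ⟨v, hv⟩ i • (B i : Fin 2 → ℚ) := by
      have h3 := congrArg (fun x : L => (x : Fin 2 → ℚ)) h1
      simp only [Submodule.coe_sum, Submodule.coe_smul] at h3
      exact h3
    rw [h2]
    refine Submodule.sum_mem _ fun i _ => ?_
    rw [hsm]
    exact Submodule.smul_mem _ _ (Submodule.subset_span ⟨i, rfl⟩)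
  have hspan : ⊤ ≤ Submodule.span ℚ (Set.range fun i => (B i : Fin 2 → ℚ)) := by
    rw [← span, Submodule.span_le]
    exact hmemspan
  let BK : Module.Basis (Fin n) ℚ (Fin 2 → ℚ) := Module.Basis.mk hliK hspan
  have hn : n = 2 := by
    have h1 := Module.finrank_eq_card_basis BK
    simpa using h1.symm
  subst hn
  let act : S →* Module.End ℤ L :=
    { toFun := fun g =>
        { toFun := fun v => ⟨((g : GL (Fin 2) ℚ) : Matrix (Fin 2) (Fin 2) ℚ).mulVec v,
            pres g g.2 v v.2⟩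
          map_add' := fun v w => Subtype.ext (by
            simp [Matrix.mulVec_add])
          map_smul' := fun a v => Subtype.ext (by
            simp [hsm, Matrix.mulVec_smul]) }
      map_one' := by
        ext v
        simp
      map_mul' := fun g h => by
        refine LinearMap.ext fun v => Subtype.ext ?_
        show (((g * h : S) : GL (Fin 2) ℚ) : Matrix (Fin 2) (Fin 2) ℚ).mulVec v = _
        rw [Subgroup.coe_mul, Units.val_mul, ← Matrix.mulVec_mulVec]
        rfl }
  let φ : S →* Matrix (Fin 2) (Fin 2) ℤ :=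
    ((LinearMap.toMatrixAlgEquiv B).toAlgHom : Module.End ℤ L →* Matrix (Fin 2) (Fin 2) ℤ).comp act
  refine ⟨φ.toHomUnits, ?_⟩
  rw [injective_iff_map_eq_one]
  intro g hg
  have h1 : φ g = 1 := by
    have := congrArg (fun u : (Matrix (Fin 2) (Fin 2) ℤ)ˣ => (u : Matrix (Fin 2) (Fin 2) ℤ)) hg
    simpa using this
  have h2 : act g = 1 := by
    have h3 : (LinearMap.toMatrixAlgEquiv B) (act g) = 1 := h1
    have h4 : (LinearMap.toMatrixAlgEquiv B) (act g) = (LinearMap.toMatrixAlgEquiv B) 1 := by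
      rw [h3, map_one]
    exact (LinearMap.toMatrixAlgEquiv B).injective h4
  have h3 : ∀ i, ((g : GL (Fin 2) ℚ) : Matrix (Fin 2) (Fin 2) ℚ).mulVec (B i) =
      (B i : Fin 2 → ℚ) := by
    intro i
    have h4 := congrArg (fun x : Module.End ℤ L => ((x (B i) : L) : Fin 2 → ℚ)) h2
    simpa [act] using h4
  have h5 : Matrix.toLin' ((g : GL (Fin 2) ℚ) : Matrix (Fin 2) (Fin 2) ℚ) = Matrix.toLin' 1 := by
    apply BK.ext
    intro i
    rw [Matrix.toLin'_apply, Matrix.toLin'_one, LinearMap.id_apply, Module.Basis.mk_apply]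
    exact h3 i
  exact Subtype.ext (Units.ext (Matrix.toLin'.injective h5))

theorem to_int (S : Subgroup (GL (Fin 2) ℚ)) (hS : BdS S) :
    ∃ f : S →* GL (Fin 2) ℤ, Function.Injective f := by
  classical
  obtain ⟨V, hV, hS⟩ := hS
  set V' : Submodule ℤ ℚ := AddSubgroup.toIntSubmodule V with hV'
  have hV'fg : V'.FG := (Submodule.fg_iff_addSubgroup_fg _).2 hV
  have hW : (Submodule.pi Set.univ (fun _ : Fin 2 => V')).FG := Submodule.fg_pi (fun _ => hV'fg)
  set L : Submodule ℤ (Fin 2 → ℚ) := Submodule.span ℤ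
    {v | ∃ s ∈ S, ∃ j, v = fun i => (s : Matrix (Fin 2) (Fin 2) ℚ) i j} with hL
  have hLW : L ≤ Submodule.pi Set.univ (fun _ : Fin 2 => V') := by
    rw [hL, Submodule.span_le]
    rintro v ⟨s, hs, j, rfl⟩
    show _ ∈ Submodule.pi Set.univ (fun _ : Fin 2 => V')
    rw [Submodule.mem_pi]
    intro i _
    exact hS s hs i j
  have hLfg : L.FG := by
    have hn : IsNoetherian ℤ (Submodule.pi Set.univ (fun _ : Fin 2 => V')) :=
      isNoetherian_of_fg_of_noetherian _ hW
    exact (isNoetherian_submodule.1 hn) L hLW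
  have h1 : ∀ j, (Pi.single j 1 : Fin 2 → ℚ) ∈ L := by
    intro j
    refine Submodule.subset_span ⟨1, S.one_mem, j, ?_⟩
    funext i
    simp [Matrix.one_apply, Pi.single_apply]
  refine toZ_rho S L hLfg ?_ ?_
  · rw [eq_top_iff]
    intro v _
    have h2 : v = ∑ j, v j • (Pi.single j 1 : Fin 2 → ℚ) := by
      funext i
      simp [Finset.sum_apply, Pi.single_apply]
    rw [h2]
    exact Submodule.sum_mem _ fun j _ => Submodule.smul_mem _ _ (Submodule.subset_span (h1 j))
  · intro g hg v hv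
    have h3 : L ≤ L.comap ((Matrix.mulVecLin (g : Matrix (Fin 2) (Fin 2) ℚ)).restrictScalars ℤ) := by
      conv_lhs => rw [hL]
      rw [Submodule.span_le]
      rintro w ⟨s, hs, j, rfl⟩
      show (Matrix.mulVecLin (g : Matrix (Fin 2) (Fin 2) ℚ)) _ ∈ L
      refine Submodule.subset_span ⟨g * s, S.mul_mem hg hs, j, ?_⟩
      funext i
      simp [Matrix.mulVec, dotProduct, Matrix.mul_apply]
    exact h3 hv

end Pool.Agent.Lib.LinQ
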