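import Pool.Agent.Lib.LinQ.Defs

set_option autoImplicit false

/-!
# Theorem L: fields with a place to `ℚ`

PROOF. `char_zero`: `π (n : O) = n ≠ 0` for `n ≠ 0`, so `(n : F) ≠ 0`. `pl_int`: `O` is integrally closed in `F` (`ValuationSubring`/`ValuationRing.isIntegrallyClosed`, `Valuation.Integers`...), and `x` is integral over
`ℤ`, so over `O`, so `x ∈ O`. `r = π x ∈ ℚ` is integral over `ℤ` (`IsIntegral.map`), so `r = n : ℤ` (`IsIntegrallyClosed.isIntegral_iff`). `y = x - n ∈ O` is integral over `ℤ`, `π y = 0`. If `y ≠ 0`: let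
`p = minpoly ℤ y` (or any nonzero integral polynomial with root `y`, divided by a power of `X` so that `p.coeff 0 ≠ 0`); `p(y) = 0` in `O`, apply `π`: `p.coeff 0 = 0` in `ℚ`, contradiction
(`minpoly.coeff_zero_ne_zero` over `ℚ`-like statements, or: `Polynomial` with `y` nonzero in a domain: `exists_integral_...`). So `x = n`.
`qPlace_ratFun`: example: `F = FractionRing (MvPolynomial (Fin d) ℤ)` has a `ℚ`-place: induction is not needed: a ring homomorphism `MvPolynomial (Fin d) ℤ → ℚ` extends to a place by
`ValuationSubring`/`LocalSubring.exists_le_valuationSubring`-like theorems only up to a bigger residue field, so use the iterated Laurent series or skip this statement.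
-/

namespace Pool.Agent.Lib.LinQ

theorem QPlace.char_zero {F : Type} [Field F] (h : QPlace F) : CharZero F := by
  obtain ⟨O, π, -⟩ := h
  refine charZero_of_inj_zero fun n hn => ?_
  have h1 : ((n : O) : F) = 0 := by
    rw [← hn]
    simp
  have h2 : (n : O) = 0 := by
    apply Subtype.ext
    rw [h1]
    rfl
  have h3 : π (n : O) = 0 := by rw [h2, map_zero]
  rw [map_natCast] at h3
  exact_mod_cast h3

theorem QPlace.pl_int {F : Type} [Field F] (h : QPlace F) {x : F} (hx : IsIntegral ℤ x) :
    ∃ n : ℤ, x = n := by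
  obtain ⟨O, π, -⟩ := h
  have h1 : IsIntegral O x := hx.tower_top
  obtain ⟨y, rfl⟩ := IsIntegrallyClosed.isIntegral_iff.mp h1
  have hinj : Function.Injective (algebraMap O F) := IsFractionRing.injective O F
  have h2 : IsIntegral ℤ y := (isIntegral_algebraMap_iff hinj).mp hx
  have h3 : IsIntegral ℤ (π y) := by
    have := h2.map π.toIntAlgHom
    simpa using this
  obtain ⟨n, hn⟩ := IsIntegrallyClosed.isIntegral_iff.mp h3
  refine ⟨n, ?_⟩
  have hz : IsIntegral ℤ (y - (n : O)) := by
    have h4 : IsIntegral ℤ ((n : ℤ) : O) := by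
      have := isIntegral_algebraMap (R := ℤ) (A := O) (x := n)
      simpa using this
    exact h2.sub h4
  have hπ : π (y - (n : O)) = 0 := by
    rw [map_sub, map_intCast, ← hn]
    simp
  by_cases h0 : y - (n : O) = 0
  · have : y = (n : O) := sub_eq_zero.mp h0
    rw [this]
    simp
  · exfalso
    set z : O := y - (n : O) with hzdef
    obtain ⟨p, hp, hpz⟩ := hz
    have hp0 : p ≠ 0 := hp.ne_zero
    obtain ⟨q, hq⟩ := Polynomial.pow_rootMultiplicity_dvd p (0 : ℤ)
    have hq0 : q.eval 0 ≠ 0 := by
      intro hq1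
      have h5 : (Polynomial.X - Polynomial.C (0 : ℤ)) ∣ q := Polynomial.dvd_iff_isRoot.mpr hq1
      obtain ⟨s, hs⟩ := h5
      have h6 : (Polynomial.X - Polynomial.C (0 : ℤ)) ^ (p.rootMultiplicity 0 + 1) ∣ p := by
        refine ⟨s, ?_⟩
        rw [pow_succ, mul_assoc, ← hs]
        exact hq
      have h7 := (Polynomial.le_rootMultiplicity_iff hp0).mpr h6
      omega
    have h8 : Polynomial.eval₂ (algebraMap ℤ O) z q = 0 := by
      have h9 : Polynomial.eval₂ (algebraMap ℤ O) z p = 0 := hpz
      rw [hq, Polynomial.eval₂_mul, Polynomial.eval₂_pow] at h9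
      rcases mul_eq_zero.mp h9 with h10 | h10
      · exfalso
        have h12 : Polynomial.eval₂ (algebraMap ℤ O) z (Polynomial.X - Polynomial.C (0 : ℤ)) = 0 := by
          by_contra hne
          exact pow_ne_zero _ hne h10
        simp at h12
        exact h0 h12
      · exact h10
    have h13 : π (Polynomial.eval₂ (algebraMap ℤ O) z q) = 0 := by rw [h8, map_zero]
    rw [Polynomial.hom_eval₂, hπ] at h13
    rw [Polynomial.eval₂_at_zero] at h13
    apply hq0
    rw [← Polynomial.coeff_zero_eq_eval_zero]
    have h14 : ((q.coeff 0 : ℤ) : ℚ) = 0 := by simpa using h13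
    exact_mod_cast h14

end Pool.Agent.Lib.LinQ
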