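import Pool.Agent.Lib.LinQ.Int2
import Pool.Agent.Lib.LinQ.QPl

set_option autoImplicit false

/-!
# Theorem L: groups with a normal subgroup of unipotent matrices

PROOF. `u ∈ N`, `u ≠ 1`. `n = u - 1` has trace `0` and determinant `0` (`det (u - 1) = det u - trace u + 1`), so `n ^ 2 = 0`, `n ≠ 0`: there is `P : GL (Fin 2) F` with `P⁻¹ n P = !![0, x; 0, 0]`, `x ≠ 0` (`P e₀` a nonzero vector of
the kernel of `n`, `P e₁` any vector not in the line; then `n P e₁` is in the kernel of `n`). For `s ∈ S` let `P⁻¹ s P = !![a, b; c, d]`. `u * (s * u * s⁻¹) ∈ N` has trace `2`, so the trace of `n * (s * n * s⁻¹)` is `0`: it is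
`- x ^ 2 * c ^ 2 / det s`, so `c = 0`. So `P⁻¹ S P` is upper triangular, `a + d = trace s` and `a * d = det s` are integral over `ℤ` (`int_of_bd`, `int_two`), so `a`, `d` are (`a ^ 2 - (a + d) a + a d = 0`: `IsIntegral` of
integral coefficients: `isIntegral_trans`, or: the trace and the determinant are integers by `pl_int`), so `a, d : ℤ` (`pl_int`), also for `s⁻¹` (`1 / a`), so `a, d = ± 1`. `χ s = (a, d)` is a homomorphism `S →* Fˣ × Fˣ` with finite
image; `M = χ.ker` has finite index; `M →* Multiplicative F`, `s ↦ b`, is an injective homomorphism with values in a finitely generated additive group `V'` (`fg_conj`), `F` has characteristic `0` (`char_zero`): `fg_free`.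
-/

namespace Pool.Agent.Lib.LinQ

open scoped MatrixGroups

theorem uni {F : Type} [Field F] (hF : QPlace F) (S : Subgroup (GL (Fin 2) F)) (hS : BdS S)
    (N : Subgroup S) [N.Normal] (hN : N ≠ ⊥)
    (h : ∀ s ∈ N, ((s : GL (Fin 2) F) : Matrix (Fin 2) (Fin 2) F).trace = 2 ∧
      ((s : GL (Fin 2) F) : Matrix (Fin 2) (Fin 2) F).det = 1) :
    ∃ M : Subgroup S, M.FiniteIndex ∧
      ∃ (n : ℕ) (f : M →* (Fin n → Multiplicative ℤ)), Function.Injective f := by
  sorry

end Pool.Agent.Lib.LinQ
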