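import Pool.Agent.Lib.LinQ.Red
import Pool.Agent.Lib.LinQ.ToZ
import Pool.Agent.Lib.LinQ.Uni

set_option autoImplicit false

/-!
# Theorem L: the dichotomy

PROOF. `red`: `σ`. If `σ` is injective: `S ≅ σ.range`, `to_int`. Otherwise `uni` with `N = σ.ker`.
-/

namespace Pool.Agent.Lib.LinQ

open scoped MatrixGroups

theorem dich {F : Type} [Field F] (hF : QPlace F) (S : Subgroup (GL (Fin 2) F)) (hS : BdS S) :
    (∃ f : S →* GL (Fin 2) ℤ, Function.Injective f) ∨ ∃ M : Subgroup S, M.FiniteIndex ∧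
      ∃ (n : ℕ) (f : M →* (Fin n → Multiplicative ℤ)), Function.Injective f := by
  obtain ⟨σ, h1, h2⟩ := red hF S hS
  by_cases hσ : Function.Injective σ
  · obtain ⟨f, hf⟩ := to_int σ.range h1
    exact Or.inl ⟨f.comp (MonoidHom.ofInjective hσ).toMonoidHom,
      hf.comp (MonoidHom.ofInjective hσ).injective⟩
  · refine Or.inr (uni hF S hS σ.ker (fun h => hσ ((MonoidHom.ker_eq_bot_iff σ).1 h)) fun s hs => ?_)
    exact h2 s (MonoidHom.mem_ker.1 hs)

end Pool.Agent.Lib.LinQ
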