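import Pool.Agent.Lib.SLT.YUfd
import Pool.Agent.Lib.SLT.ZPlaces
import Pool.Agent.Lib.SLT.ZScale
import Mathlib.RingTheory.Polynomial.UniqueFactorization

set_option autoImplicit false

/-!
# Theorem L: the finite places

PROOF. `B = MvPolynomial (Fin d) ℤ` is a UFD, `K` its fraction field, of characteristic `0`, so `L / K` is separable. `mem_range_of_ploc` for `D`: primes `π i` such that `y ∈ bloc K D` and `y ∈ ploc K (π i)` for all `i` imply
`y ∈ B`. `z_places` for `ploc_dval (hπ i)` and `L / K`: the places over each `π i`; put them in one family (as in the theorem `places_fam` of `Pool/Agent/Lib/SLT/YMain.lean`, which can be imported):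
`c' k ^ N x ∈ O' k` for all `k` implies `π_i ^ N x` integral over `ploc K (π i)` for all `i`. `P = (∏ i, π i) ^ N`. Let `q = minpoly K x`, `n` its degree. `z_coeff` with `S = ploc K (π i)` (`dval_frac`, `dval_dvr` give
`IsFractionRing`, `IsIntegrallyClosed`) and `u = π_i ^ N`: `q.coeff j * (π_i ^ N) ^ (n - j) ∈ ploc K (π i)`, so `q.coeff j * P ^ (n - j) ∈ ploc K (π i)` for all `i`. From `D ^ k x` integral over `B`:
the minimal polynomial of `D ^ k x` over `K` has coefficients in `B` (`minpoly.isIntegrallyClosed_eq_field_fractions'`), `z_scale`: `q.coeff j * (D ^ k) ^ (n - j) ∈ B`, so `q.coeff j * P ^ (n - j) ∈ bloc K D`.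
So the coefficients of `q.scaleRoots P` are in `B`; it is monic with root `P x` (`Polynomial.scaleRoots_aeval_eq_zero`): `P x` is integral over `B`.
-/

namespace Pool.Agent.Lib.LinQ

open Pool.Agent.Lib.SLT

/-- the places over finitely many places -/
private theorem places_fam' {F L : Type} [Field F] [Field L] [Algebra F L] [FiniteDimensional F L]
    [Algebra.IsSeparable F L] {m : ℕ} {O : Fin m → Subring F} {c : Fin m → Fˣ}
    (hO : ∀ i, DVal (O i) (c i)) :
    ∃ (n : ℕ) (O' : Fin n → Subring L) (c' : Fin n → Lˣ), (∀ i, DVal (O' i) (c' i)) ∧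
      ∀ (N : ℕ) (a : L), (∀ i, (c' i : L) ^ N * a ∈ O' i) → ∀ j,
        IsIntegral (O j) (algebraMap F L ((c j : F) ^ N) * a) := by
  choose n O' c' hO' h using fun i => z_places (L := L) (hO i)
  obtain ⟨M, ⟨e⟩⟩ := Finite.exists_equiv_fin (Σ i, Fin (n i))
  refine ⟨M, fun k => O' (e.symm k).1 (e.symm k).2, fun k => c' (e.symm k).1 (e.symm k).2,
    fun k => hO' _ _, fun N a ha j => h j N a fun i => ?_⟩
  have key : ∀ p : (Σ i, Fin (n i)), (c' p.1 p.2 : L) ^ N * a ∈ O' p.1 p.2 := by
    intro p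
    have h1 : (c' (e.symm (e p)).1 (e.symm (e p)).2 : L) ^ N * a ∈
        O' (e.symm (e p)).1 (e.symm (e p)).2 := ha (e p)
    rwa [e.symm_apply_apply p] at h1
  exact key ⟨j, i⟩

theorem fin_z (d : ℕ) (K L : Type) [Field K] [Algebra (MvPolynomial (Fin d) ℤ) K]
    [IsFractionRing (MvPolynomial (Fin d) ℤ) K] [Field L] [Algebra K L]
    [Algebra (MvPolynomial (Fin d) ℤ) L] [IsScalarTower (MvPolynomial (Fin d) ℤ) K L]
    [FiniteDimensional K L] (D : MvPolynomial (Fin d) ℤ) (hD : D ≠ 0) :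
    ∃ (m : ℕ) (O : Fin m → Subring L) (c : Fin m → Lˣ), (∀ i, DVal (O i) (c i)) ∧
      ∀ N : ℕ, ∃ P : MvPolynomial (Fin d) ℤ, P ≠ 0 ∧ ∀ x : L,
        (∃ k : ℕ, IsIntegral (MvPolynomial (Fin d) ℤ)
          (algebraMap (MvPolynomial (Fin d) ℤ) L D ^ k * x)) →
        (∀ i, (c i : L) ^ N * x ∈ O i) →
        IsIntegral (MvPolynomial (Fin d) ℤ) (algebraMap (MvPolynomial (Fin d) ℤ) L P * x) := by
  have hinj := IsFractionRing.injective (MvPolynomial (Fin d) ℤ) K
  have hchar : CharZero K := charZero_of_injective_algebraMap hinj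
  obtain ⟨m, π, hπ, hrange⟩ := mem_range_of_ploc (F := K) hD
  obtain ⟨n, O', c', hO', hpl⟩ := places_fam' (F := K) (L := L)
    (fun i => ploc_dval (F := K) (hπ i))
  refine ⟨n, O', c', hO', fun N => ?_⟩
  let Q : MvPolynomial (Fin d) ℤ := ∏ i, π i
  have hQ : Q ≠ 0 := Finset.prod_ne_zero_iff.2 fun i _ => (hπ i).ne_zero
  refine ⟨Q ^ N, pow_ne_zero N hQ, fun x hx1 hx2 => ?_⟩
  obtain ⟨k, hk⟩ := hx1
  have hxK : IsIntegral K x := Algebra.IsIntegral.isIntegral x
  -- the coefficients are integral at the primes `π i`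
  have hA : ∀ (j : ℕ) (i : Fin m), (minpoly K x).coeff j *
      (algebraMap (MvPolynomial (Fin d) ℤ) K (π i) ^ N) ^ ((minpoly K x).natDegree - j) ∈
        ploc K (π i) (hπ i) := by
    intro j i
    have h1 := dval_frac (ploc_dval (F := K) (hπ i))
    have h2 := dval_dvr (ploc_dval (F := K) (hπ i))
    have hu : (algebraMap (MvPolynomial (Fin d) ℤ) K (π i)) ^ N ≠ 0 := by
      refine pow_ne_zero N fun h => (hπ i).ne_zero (hinj ?_)
      rw [h, map_zero]
    exact z_coeff (S := ploc K (π i) (hπ i)) hxK hu (hpl N x hx2 i) j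
  have hB : ∀ (j : ℕ) (i : Fin m), (minpoly K x).coeff j *
      (algebraMap (MvPolynomial (Fin d) ℤ) K (Q ^ N)) ^ ((minpoly K x).natDegree - j) ∈
        ploc K (π i) (hπ i) := by
    intro j i
    have h1 : Q = π i * ∏ i' ∈ Finset.univ.erase i, π i' :=
      (Finset.mul_prod_erase Finset.univ π (Finset.mem_univ i)).symm
    have h2 : (minpoly K x).coeff j *
        (algebraMap (MvPolynomial (Fin d) ℤ) K (Q ^ N)) ^ ((minpoly K x).natDegree - j) =
        ((minpoly K x).coeff j *
          (algebraMap (MvPolynomial (Fin d) ℤ) K (π i) ^ N) ^ ((minpoly K x).natDegree - j)) *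
        algebraMap (MvPolynomial (Fin d) ℤ) K
          (((∏ i' ∈ Finset.univ.erase i, π i') ^ N) ^ ((minpoly K x).natDegree - j)) := by
      rw [h1, mul_pow, map_mul, mul_pow, map_pow, map_pow, map_pow, map_pow, mul_assoc]
    rw [h2]
    exact Subring.mul_mem _ (hA j i) (algebraMap_mem_ploc (hπ i) _)
  -- the coefficients of the minimal polynomial of `D ^ k x`
  have hC : ∀ j : ℕ, ∃ b : MvPolynomial (Fin d) ℤ, algebraMap (MvPolynomial (Fin d) ℤ) K b =
      (minpoly K x).coeff j *
        (algebraMap (MvPolynomial (Fin d) ℤ) K (D ^ k)) ^ ((minpoly K x).natDegree - j) := by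
    intro j
    have hu : algebraMap (MvPolynomial (Fin d) ℤ) K (D ^ k) ≠ 0 := by
      intro h
      exact pow_ne_zero k hD (hinj (by rw [h, map_zero]))
    have hk' : IsIntegral (MvPolynomial (Fin d) ℤ)
        (algebraMap K L (algebraMap (MvPolynomial (Fin d) ℤ) K (D ^ k)) * x) := by
      rw [← IsScalarTower.algebraMap_apply, map_pow]
      exact hk
    have h1 := z_scale hxK hu
    have h2 := minpoly.isIntegrallyClosed_eq_field_fractions' K hk'
    refine ⟨(minpoly (MvPolynomial (Fin d) ℤ)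
      (algebraMap K L (algebraMap (MvPolynomial (Fin d) ℤ) K (D ^ k)) * x)).coeff j, ?_⟩
    rw [← Polynomial.coeff_scaleRoots, ← h1, h2, Polynomial.coeff_map]
  -- the coefficients are in `B`
  have hE : ∀ j : ℕ, ∃ b : MvPolynomial (Fin d) ℤ, algebraMap (MvPolynomial (Fin d) ℤ) K b =
      (minpoly K x).coeff j *
        (algebraMap (MvPolynomial (Fin d) ℤ) K (Q ^ N)) ^ ((minpoly K x).natDegree - j) := by
    intro j
    refine hrange _ ?_ (hB j)
    obtain ⟨b, hb⟩ := hC j
    refine ⟨k * ((minpoly K x).natDegree - j), b * (Q ^ N) ^ ((minpoly K x).natDegree - j), ?_⟩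
    have e1 : algebraMap (MvPolynomial (Fin d) ℤ) K (D ^ k) =
        algebraMap (MvPolynomial (Fin d) ℤ) K D ^ k := map_pow _ _ _
    have e2 : algebraMap (MvPolynomial (Fin d) ℤ) K ((Q ^ N) ^ ((minpoly K x).natDegree - j)) =
        algebraMap (MvPolynomial (Fin d) ℤ) K (Q ^ N) ^ ((minpoly K x).natDegree - j) :=
      map_pow _ _ _
    rw [map_mul, hb, e1, e2, pow_mul]
    ring
  have hmon : ((minpoly K x).scaleRoots (algebraMap (MvPolynomial (Fin d) ℤ) K (Q ^ N))).Monic :=
    (Polynomial.monic_scaleRoots_iff _).2 (minpoly.monic hxK)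
  have hlift : (minpoly K x).scaleRoots (algebraMap (MvPolynomial (Fin d) ℤ) K (Q ^ N)) ∈
      Polynomial.lifts (algebraMap (MvPolynomial (Fin d) ℤ) K) := by
    rw [Polynomial.lifts_iff_coeff_lifts]
    intro j
    rw [Polynomial.coeff_scaleRoots]
    exact hE j
  obtain ⟨R, hR, -, hRm⟩ := Polynomial.lifts_and_natDegree_eq_and_monic hlift hmon
  refine ⟨R, hRm, ?_⟩
  have h1 : Polynomial.aeval (algebraMap K L (algebraMap (MvPolynomial (Fin d) ℤ) K (Q ^ N)) * x)
      ((minpoly K x).scaleRoots (algebraMap (MvPolynomial (Fin d) ℤ) K (Q ^ N))) = 0 :=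
    Polynomial.scaleRoots_aeval_eq_zero (minpoly.aeval K x)
  rw [← hR, Polynomial.aeval_map_algebraMap, ← IsScalarTower.algebraMap_apply] at h1
  exact h1

end Pool.Agent.Lib.LinQ
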