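import Pool.Agent.Lib.PTX.VCp
import Pool.Agent.Lib.SLT.FAct
import Pool.Agent.Lib.SLT.DInt

set_option autoImplicit false

/-!
# Theorem L: the classes `LVR` and `HW`
-/

namespace Pool.Agent.Lib.LinQ

open scoped MatrixGroups
open Pool.Agent.Lib.PTX (LVR HW hw_virt hw_triv HV hw_tree finiteIndex_comap' torsionFree_pow)
open Pool.Agent.Lib.MP_16fe43_al (StReg TAct)
open Pool.Agent.Lib.BHS16 (TorsionFree)
open Pool.Agent.Lib.SLT (stReg_comm nReg_comm NReg stReg_tree farey farey_triv)

theorem lvr_of_injective {E E' : Type} [Group E] [Group E'] (f : E' →* E)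
    (hf : Function.Injective f) (h : LVR E) : LVR E' := by
  intro H hH
  have fgH : Group.FG H := (Group.fg_iff_subgroup_fg H).2 hH
  let e := H.equivMapOfInjective f hf
  obtain ⟨M, hM, hMr⟩ := h (H.map f) ((Group.fg_iff_subgroup_fg _).1
    (Group.fg_of_surjective (f := e.toMonoidHom) e.surjective))
  have h1 : (M.comap e.toMonoidHom).FiniteIndex := finiteIndex_comap' _ M
  refine ⟨M.comap e.toMonoidHom, h1, ?_⟩
  let g : M.comap e.toMonoidHom →* M := e.toMonoidHom.subgroupComap M
  refine StReg.of_injective g ?_ hMr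
  intro a b hab
  exact Subtype.ext (e.injective (congrArg (fun z : M => (z : H.map f)) hab))

theorem lvr_virt {E : Type} [Group E] (M : Subgroup E) [M.FiniteIndex] (h : LVR M) : LVR E := by
  intro H hH
  have fgH : Group.FG H := (Group.fg_iff_subgroup_fg H).2 hH
  let H' : Subgroup H := M.comap H.subtype
  have h1 : H'.FiniteIndex := finiteIndex_comap' _ M
  have fgH' : Group.FG H' := Subgroup.fg_of_index_ne_zero H'
  let g : H' →* M := H.subtype.subgroupComap M
  have hg : Function.Injective g := by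
    intro a b hab
    exact Subtype.ext (Subtype.ext (congrArg (fun z : M => (z : E)) hab))
  obtain ⟨P, hP, hPr⟩ := lvr_of_injective g hg h ⊤ ((Group.fg_iff_subgroup_fg _).1
    (Group.fg_of_surjective (f := (Subgroup.topEquiv (G := H')).symm.toMonoidHom)
      (Subgroup.topEquiv (G := H')).symm.surjective))
  let P1 : Subgroup H' := P.map (⊤ : Subgroup H').subtype
  have hP1 : P1.FiniteIndex := ⟨by
    rw [Subgroup.index_map_subtype]
    exact mul_ne_zero hP.index_ne_zero (by simp)⟩
  let P2 : Subgroup H := P1.map H'.subtype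
  have hP2 : P2.FiniteIndex := ⟨by
    rw [Subgroup.index_map_subtype]
    exact mul_ne_zero hP1.index_ne_zero h1.index_ne_zero⟩
  refine ⟨P2, hP2, ?_⟩
  let e1 := P1.equivMapOfInjective H'.subtype H'.subtype_injective
  let e2 := P.equivMapOfInjective (⊤ : Subgroup H').subtype (Subgroup.subtype_injective _)
  exact StReg.of_injective (e2.symm.toMonoidHom.comp e1.symm.toMonoidHom)
    (e2.symm.injective.comp e1.symm.injective) hPr

private theorem fi_bot {K : Type} [Group K] [Finite K] : (⊥ : Subgroup K).FiniteIndex := by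
  infer_instance

theorem hw_finite {K : Type} [Group K] [Finite K] : HW K :=
  hw_virt (⊥ : Subgroup K) (hw_triv fun g => Subsingleton.elim g 1)

private theorem stReg_triv {K : Type} [Group K] (h : ∀ g : K, g = 1) : StReg K :=
  stReg_comm (fun a b => by rw [h a, h b]) (fun g _ => h g)

private theorem nReg_triv {K : Type} [Group K] (h : ∀ g : K, g = 1) : NReg K := by
  have : Subsingleton K := ⟨fun a b => by rw [h a, h b]⟩
  exact nReg_comm (fun a b => by rw [h a, h b]) (fun g _ => h g) inferInstance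

theorem lvr_finite {K : Type} [Group K] [Finite K] : LVR K := fun _ _ =>
  ⟨⊥, inferInstance, stReg_triv fun g => Subsingleton.elim g 1⟩

private theorem tf_zn (n : ℕ) : TorsionFree (Fin n → Multiplicative ℤ) := by
  have h := torsionFree_pow (N := Unit) (fun _ _ => rfl) n
  exact TorsionFree.of_injective (MonoidHom.inr Unit (Fin n → Multiplicative ℤ))
    (fun a b hab => congrArg Prod.snd hab) h

theorem lvr_zn (n : ℕ) : LVR (Fin n → Multiplicative ℤ) := fun H _ =>
  ⟨⊤, inferInstance, stReg_comm (fun a b => mul_comm a b)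
    (TorsionFree.of_injective (H.subtype.comp (⊤ : Subgroup H).subtype)
      (H.subtype_injective.comp (Subgroup.subtype_injective _)) (tf_zn n))⟩

theorem hw_zn (n : ℕ) : HW (Fin n → Multiplicative ℤ) := by
  intro k
  have h := hw_triv (K := Unit) (fun _ => rfl) (n + k)
  refine h.of_injective
    { toFun := fun x => ((), Fin.append x.1 x.2)
      map_one' := ?_
      map_mul' := fun x y => ?_ } ?_
  · refine Prod.ext rfl ?_
    funext i
    refine Fin.addCases (fun j => ?_) (fun j => ?_) i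
    · simp
    · simp
  · refine Prod.ext rfl ?_
    funext i
    refine Fin.addCases (fun j => ?_) (fun j => ?_) i
    · simp
    · simp
  · intro x y hxy
    have h1 : Fin.append x.1 x.2 = Fin.append y.1 y.2 := congrArg Prod.snd hxy
    refine Prod.ext ?_ ?_
    · funext i
      have h2 := congrFun h1 (Fin.castAdd k i)
      simpa using h2
    · funext i
      have h2 := congrFun h1 (Fin.natAdd n i)
      simpa using h2

section three

/-- the greatest power of three -/
private theorem exists_three (X : Matrix (Fin 2) (Fin 2) ℤ) (i j : Fin 2) (h : X i j ≠ 0) :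
    ∃ (k : ℕ) (A : Matrix (Fin 2) (Fin 2) ℤ), X = (3 ^ k : ℤ) • A ∧
      ¬ ∃ B : Matrix (Fin 2) (Fin 2) ℤ, A = (3 : ℤ) • B := by
  obtain ⟨n, hn⟩ : ∃ n : ℕ, (X i j).natAbs = n := ⟨_, rfl⟩
  induction n using Nat.strong_induction_on generalizing X with
  | _ n ih =>
    by_cases hX : ∃ B : Matrix (Fin 2) (Fin 2) ℤ, X = (3 : ℤ) • B
    · obtain ⟨B, hB⟩ := hX
      have h1 : X i j = 3 * B i j := by rw [hB]; rfl
      have h2 : B i j ≠ 0 := by
        intro h3
        rw [h3, mul_zero] at h1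
        exact h h1
      obtain ⟨k, A, hA, hA'⟩ := ih (B i j).natAbs (by
        rw [← hn, h1, Int.natAbs_mul]
        have : 0 < (B i j).natAbs := Int.natAbs_pos.2 h2
        have h4 : (3 : ℤ).natAbs = 3 := rfl
        rw [h4]
        omega) B h2 rfl
      exact ⟨k + 1, A, by rw [hB, hA, smul_smul, pow_succ, mul_comm], hA'⟩
    · exact ⟨0, X, by rw [pow_zero, one_smul], hX⟩

private theorem add_pow_aux (X : Matrix (Fin 2) (Fin 2) ℤ) (q : ℕ) :
    ∃ B : Matrix (Fin 2) (Fin 2) ℤ, (1 + X) ^ q = 1 + (q : ℤ) • X + X * X * B := by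
  induction q with
  | zero => exact ⟨0, by simp⟩
  | succ q ih =>
    obtain ⟨B, hB⟩ := ih
    refine ⟨(q : ℤ) • 1 + B + B * X, ?_⟩
    rw [pow_succ, hB]
    have h1 : ((q + 1 : ℕ) : ℤ) • X = (q : ℤ) • X + X := by
      rw [Nat.cast_succ, add_smul, one_smul]
    rw [h1]
    simp only [mul_add, add_mul, mul_one, one_mul, smul_mul_assoc, mul_smul_comm, mul_assoc]
    abel

private theorem three_dvd {A C : Matrix (Fin 2) (Fin 2) ℤ} {q : ℤ} (hq : ¬ (3 : ℤ) ∣ q)
    (h : q • A = (3 : ℤ) • C) : ∃ B : Matrix (Fin 2) (Fin 2) ℤ, A = (3 : ℤ) • B := by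
  have h1 : ∀ i j, (3 : ℤ) ∣ A i j := by
    intro i j
    have h2 : q * A i j = 3 * C i j := congrFun (congrFun h i) j
    have h3 : (3 : ℤ) ∣ q * A i j := ⟨_, h2⟩
    exact ((Int.prime_three.dvd_mul).1 h3).resolve_left hq
  choose B hB using h1
  exact ⟨Matrix.of B, by ext i j; exact hB i j⟩

private theorem prime_three_case (X : Matrix (Fin 2) (Fin 2) ℤ) (hX : X ≠ 0)
    (Y : Matrix (Fin 2) (Fin 2) ℤ) (hY : X = (3 : ℤ) • Y) (q : ℕ) (hq : q.Prime)
    (h : (1 + X) ^ q = 1) : False := by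
  obtain ⟨i, j, hij⟩ : ∃ i j, X i j ≠ 0 := by
    by_contra hne
    push Not at hne
    exact hX (by ext i j; exact hne i j)
  obtain ⟨k, A, hA, hA'⟩ := exists_three X i j hij
  have hk : k ≠ 0 := by
    rintro rfl
    rw [pow_zero, one_smul] at hA
    exact hA' ⟨Y, by rw [← hA]; exact hY⟩
  obtain ⟨k, rfl⟩ := Nat.exists_eq_add_one_of_ne_zero hk
  have h3 : (3 ^ (k + 1) : ℤ) ≠ 0 := by positivity
  by_cases h3q : (3 : ℤ) ∣ (q : ℤ)
  · have hq3 : q = 3 := by
      have h4 : 3 ∣ q := by exact_mod_cast h3q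
      exact ((Nat.prime_dvd_prime_iff_eq Nat.prime_three hq).1 h4).symm
    subst hq3
    have h4 : (1 + X) ^ 3 = 1 + (3 : ℤ) • X + (3 : ℤ) • (X * X) + X * X * X := by
      simp only [pow_succ, pow_zero, one_mul, mul_add, add_mul, mul_one]
      module
    rw [h4] at h
    have h5 : (3 : ℤ) • X + (3 : ℤ) • (X * X) + X * X * X = 0 := by
      have h6 : 1 + (3 : ℤ) • X + (3 : ℤ) • (X * X) + X * X * X =
          1 + ((3 : ℤ) • X + (3 : ℤ) • (X * X) + X * X * X) := by abel
      rw [h6] at h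
      exact left_eq_add.1 h.symm
    rw [hA] at h5
    have h6 : (3 * 3 ^ (k + 1) : ℤ) • (A + (3 : ℤ) • ((3 ^ k : ℤ) • (A * A) +
        (3 ^ (2 * k) : ℤ) • (A * A * A))) = 0 := by
      rw [← h5]
      simp only [smul_add, smul_smul, smul_mul_assoc, mul_smul_comm]
      ring_nf
      rw [add_assoc]
    have h7 := (smul_eq_zero.1 h6).resolve_left (by positivity)
    refine hA' ⟨-((3 ^ k : ℤ) • (A * A) + (3 ^ (2 * k) : ℤ) • (A * A * A)), ?_⟩
    rw [smul_neg]
    exact eq_neg_of_add_eq_zero_left h7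
  · obtain ⟨B, hB⟩ := add_pow_aux X q
    rw [hB] at h
    have h5 : (q : ℤ) • X + X * X * B = 0 := by
      have h6 : 1 + (q : ℤ) • X + X * X * B = 1 + ((q : ℤ) • X + X * X * B) := by abel
      rw [h6] at h
      exact left_eq_add.1 h.symm
    rw [hA] at h5
    have h6 : (3 ^ (k + 1) : ℤ) • ((q : ℤ) • A + (3 : ℤ) • ((3 ^ k : ℤ) • (A * A * B))) = 0 := by
      rw [← h5]
      simp only [smul_add, smul_smul, smul_mul_assoc, mul_smul_comm]
      ring_nf
    have h7 := (smul_eq_zero.1 h6).resolve_left h3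
    refine hA' (three_dvd (C := -((3 ^ k : ℤ) • (A * A * B))) h3q ?_)
    rw [smul_neg]
    exact eq_neg_of_add_eq_zero_left h7

end three

theorem tf_three (g : GL (Fin 2) ℤ)
    (h : Matrix.GeneralLinearGroup.map (Int.castRingHom (ZMod 3)) g = 1) (hg : IsOfFinOrder g) :
    g = 1 := by
  by_contra hne
  have h1 : orderOf g ≠ 1 := fun h2 => hne (orderOf_eq_one_iff.1 h2)
  obtain ⟨q, hq, hqd⟩ := Nat.exists_prime_and_dvd h1
  obtain ⟨m, hm⟩ := hqd
  have hpos : 0 < orderOf g := hg.orderOf_pos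
  have hm0 : m ≠ 0 := by
    rintro rfl
    omega
  let g' : GL (Fin 2) ℤ := g ^ m
  have hg'1 : g' ≠ 1 := by
    intro h2
    have h3 := orderOf_dvd_of_pow_eq_one h2
    rw [hm] at h3
    have h4 := Nat.le_of_dvd (Nat.pos_of_ne_zero hm0) h3
    have h5 := hq.two_le
    have h6 : 0 < m := Nat.pos_of_ne_zero hm0
    nlinarith
  have hg'q : g' ^ q = 1 := by
    rw [← pow_mul, mul_comm, ← hm, pow_orderOf_eq_one]
  have hg'3 : Matrix.GeneralLinearGroup.map (Int.castRingHom (ZMod 3)) g' = 1 := by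
    rw [map_pow, h, one_pow]
  have hdvd : ∀ i j, (3 : ℤ) ∣ ((g' : Matrix (Fin 2) (Fin 2) ℤ) - 1) i j := by
    intro i j
    have h2 := congrArg (fun u : GL (Fin 2) (ZMod 3) => (u : Matrix (Fin 2) (Fin 2) (ZMod 3)) i j)
      hg'3
    have h3 : (((g' : Matrix (Fin 2) (Fin 2) ℤ) i j : ℤ) : ZMod 3) =
        (1 : Matrix (Fin 2) (Fin 2) (ZMod 3)) i j := by simpa using h2
    have h4 : ((((g' : Matrix (Fin 2) (Fin 2) ℤ) - 1) i j : ℤ) : ZMod 3) = 0 := by
      rw [Matrix.sub_apply, Int.cast_sub, h3, sub_eq_zero]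
      by_cases hij : i = j
      · subst hij
        simp
      · simp [Matrix.one_apply_ne hij]
    exact (ZMod.intCast_zmod_eq_zero_iff_dvd _ 3).1 h4
  choose Y hY using hdvd
  refine prime_three_case ((g' : Matrix (Fin 2) (Fin 2) ℤ) - 1) ?_ (Matrix.of Y)
    (by ext i j; exact hY i j) q hq ?_
  · intro h2
    exact hg'1 (Units.ext (sub_eq_zero.1 h2))
  · rw [add_sub_cancel]
    have h2 := congrArg (fun u : GL (Fin 2) ℤ => (u : Matrix (Fin 2) (Fin 2) ℤ)) hg'q
    simpa using h2

private theorem stReg_three :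
    StReg (Matrix.GeneralLinearGroup.map (n := Fin 2) (Int.castRingHom (ZMod 3))).ker := by
  have tf : TorsionFree (Matrix.GeneralLinearGroup.map (n := Fin 2)
      (Int.castRingHom (ZMod 3))).ker := by
    intro g hg
    refine Subtype.ext (tf_three g g.2 ?_)
    exact MonoidHom.isOfFinOrder (Subgroup.subtype _) hg
  obtain ⟨V, a, T, hT, hst⟩ := farey_triv tf (Subgroup.subtype _) (Subgroup.subtype_injective _)
  refine stReg_tree hT (fun v => stReg_triv fun g => ?_) (fun x y _ => nReg_triv fun g => ?_)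
  · exact Subtype.ext (Subgroup.mem_bot.1 ((hst v).le g.2))
  · exact Subtype.ext (Subgroup.mem_bot.1 ((hst x).le g.2.1))

theorem lvr_glz : LVR (GL (Fin 2) ℤ) := by
  have h1 : (Matrix.GeneralLinearGroup.map (n := Fin 2)
      (Int.castRingHom (ZMod 3))).ker.FiniteIndex := inferInstance
  refine lvr_virt (Matrix.GeneralLinearGroup.map (n := Fin 2) (Int.castRingHom (ZMod 3))).ker
    fun H _ => ⟨⊤, inferInstance, ?_⟩
  exact StReg.of_injective (H.subtype.comp (⊤ : Subgroup H).subtype)
    (H.subtype_injective.comp (Subgroup.subtype_injective _)) stReg_three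

theorem hw_glz : HW (GL (Fin 2) ℤ) := by
  obtain ⟨V, a, T, hT, hfin, -⟩ := farey (MonoidHom.id (GL (Fin 2) ℤ))
  have hst : ∀ v : V, Finite (MulAction.stabilizer (GL (Fin 2) ℤ) v) := by
    intro v
    have h1 := hfin v
    rw [MonoidHom.coe_id, Set.image_id] at h1
    exact h1.to_subtype
  refine hw_tree (m := 1) (fun _ => V) (fun _ => T) (fun _ => hT.tree) (fun _ => hT.adj)
    (fun x => ?_) (fun x i y _ => ?_)
  · have h1 := hst (x 0)
    have h2 : Finite (⨅ i, MulAction.stabilizer (GL (Fin 2) ℤ) (x i) :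
        Subgroup (GL (Fin 2) ℤ)) :=
      Finite.of_injective _ (Subgroup.inclusion_injective (iInf_le _ 0))
    exact hw_finite
  · have h1 := hst y
    have h2 : Finite ((⨅ i, MulAction.stabilizer (GL (Fin 2) ℤ) (x i)) ⊓
        MulAction.stabilizer (GL (Fin 2) ℤ) y : Subgroup (GL (Fin 2) ℤ)) :=
      Finite.of_injective _ (Subgroup.inclusion_injective inf_le_right)
    exact lvr_finite

theorem virt_case {Z : Type} [Group Z] (M : Subgroup Z) [M.FiniteIndex]
    (h : (∃ f : M →* GL (Fin 2) ℤ, Function.Injective f) ∨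
      ∃ M' : Subgroup M, M'.FiniteIndex ∧
        ∃ (n : ℕ) (f : M' →* (Fin n → Multiplicative ℤ)), Function.Injective f) :
    HW Z ∧ LVR Z := by
  rcases h with ⟨f, hf⟩ | ⟨M', hM', n, f, hf⟩
  · exact ⟨hw_virt M (hw_glz.of_injective f hf), lvr_virt M (lvr_of_injective f hf lvr_glz)⟩
  · exact ⟨hw_virt M (hw_virt M' ((hw_zn n).of_injective f hf)),
      lvr_virt M (lvr_virt M' (lvr_of_injective f hf (lvr_zn n)))⟩

end Pool.Agent.Lib.LinQ
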