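import Pool.Agent.Lib.LinQ.Plc
import Pool.Agent.Lib.LinQ.Ab
import Pool.Agent.Lib.SLT.ZMat
import Pool.Agent.Lib.SLT.YTree

set_option autoImplicit false

/-!
# Theorem L: the trees

PROOF (compare `Pool/Agent/Lib/SLT/ZGL.lean`). `z_mat fg ρ`: `S`, `ρ'`. `plc_z S`: `E`, `φ`, and the places. `ρ'' = (GL.map φ).comp ρ' : K →* GL (Fin 2) E`; `tree_bd hO ρ''`: the trees; for a tuple `x` the `N` of `tree_bd` bounds the
entries of `ρ'' g` (which are `φ` of the entries of `ρ' g`, in `φ.range`) at all places: they are in the finitely generated group `V_E` of `PlcZ`. `V = (V_E.comap φ).map (Subring.closure S).subtype` (`fg_comap` with `φ` injective,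
`AddSubgroup.FG.map`): the entries of `ρ g` are the images of the entries of `ρ' g`.
-/

namespace Pool.Agent.Lib.LinQ

open Pool.Agent.Lib.SLT
open scoped MatrixGroups

private theorem treeZ_fg_map {A B : Type} [AddCommGroup A] [AddCommGroup B] (f : A →+ B)
    {V : AddSubgroup A} (hV : V.FG) : (V.map f).FG := by
  classical
  obtain ⟨S, hS⟩ := hV
  refine ⟨S.image f, ?_⟩
  rw [Finset.coe_image, ← AddMonoidHom.map_closure, hS]

theorem pz_gl {F : Type} [Field F] [CharZero F] {K : Type} [Group K] (fg : Group.FG K)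
    (ρ : K →* GL (Fin 2) F) : PZ ρ := by
  obtain ⟨S, ρ', hρ⟩ := z_mat fg ρ
  obtain ⟨E, hE, φ, hφ, n, O, c, hO, hV⟩ := plc_z S
  obtain ⟨ι, hι, X, T, act, hT, hadj, hx⟩ := tree_bd hO
    ((Matrix.GeneralLinearGroup.map (n := Fin 2) φ).comp ρ')
  refine ⟨ι, hι, X, T, act, hT, hadj, ?_⟩
  intro x
  obtain ⟨N, hN⟩ := hx x
  obtain ⟨V, hVfg, hVm⟩ := hV N
  refine ⟨(V.comap φ.toAddMonoidHom).map (Subring.closure (S : Set F)).subtype.toAddMonoidHom,
    treeZ_fg_map _ (fg_comap φ.toAddMonoidHom hφ hVfg), ?_⟩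
  intro g hg l j
  refine ⟨(ρ' g : Matrix (Fin 2) (Fin 2) (Subring.closure (S : Set F))) l j, ?_, ?_⟩
  · show φ ((ρ' g : Matrix (Fin 2) (Fin 2) (Subring.closure (S : Set F))) l j) ∈ V
    refine hVm _ ⟨_, rfl⟩ ?_
    intro i
    exact (hN g hg i).1 l j
  · rw [hρ]
    rfl

end Pool.Agent.Lib.LinQ
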