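import Pool.Agent.Lib.LinQ.Grp
import Pool.Agent.Lib.LinQ.Dich
import Pool.Agent.Lib.LinQ.TreeZ

set_option autoImplicit false

/-!
# Theorem L: the action on the product of trees

PROOF. Trees: `pz_gl fg ρ` (index `ι`) and `PFin η` (index `κ`), index type `ι ⊕ κ`, reindexed by `Fin m` (`Finite.exists_equiv_fin`; see `pfin_prod` in SLT.ZApp and `hv_of_main` in SLT.YHv). `hw_tree`. For a tuple `x` let
`Z = ⨅ i, stabilizer K (x i)`; `V` from `PZ`. `M = η.ker.subgroupOf Z` (or `Z ⊓ η.ker` seen in `Z`: the kernel of `η.comp Z.subtype`) has finite index in `Z`: the range of `η.comp Z.subtype` is finite (`PFin`;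
`Subgroup.finiteIndex_ker`, finite range). `ρ` is injective on `M`: `S` = the image of `M` under `ρ`, `BdS S` with `V`; `dich hF S`: transport to `M` by the isomorphism `M ≅ S` (`MonoidHom.ofInjective`). `virt_case`: `HW Z ∧ LVR Z`.
For the edges: the stabilizer is contained in `Z`: `lvr_of_injective (Subgroup.inclusion inf_le_left)`.
-/

namespace Pool.Agent.Lib.LinQ

open Pool.Agent.Lib.SLT
open scoped MatrixGroups
open Pool.Agent.Lib.PTX (LVR HW)

theorem hw_lin {K F H : Type} [Group K] [Field F] [Group H] (hF : QPlace F) (fg : Group.FG K)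
    (ρ : K →* GL (Fin 2) F) (η : K →* H) (hη : PFin η)
    (inj : ∀ g : K, η g = 1 → ρ g = 1 → g = 1) : HW K := by
  sorry

end Pool.Agent.Lib.LinQ
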