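import Pool.Agent.Lib.PTX.VCp
import Pool.Agent.Lib.SLT.UTop

set_option autoImplicit false

/-!
# The linear groups of `u_top` satisfy `HW`

`hw_vlin`: if `K` has the property `VLin F K` then all the torsion-free groups with a subgroup of finite index which
embeds in some `K × ℤ^k` satisfy `StV`, so `K` belongs to the class `VX` (`vx_vlin`).
-/

namespace Pool.Agent.Lib.LinQ

open Pool.Agent.Lib.SLT (HZ HIso VLin RatFun u_top)
open Pool.Agent.Lib.PTX (HW HV VX finiteIndex_comap')
open Pool.Agent.Lib.BHS16 (TorsionFree LowKVanishing)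
open scoped MatrixGroups Quaternion

/-- pairs of matrices -/
private def dl (R T : Type) [CommRing R] [CommRing T] :
    Matrix (Fin 2) (Fin 2) R × Matrix (Fin 2) (Fin 2) T →* Matrix (Fin 2) (Fin 2) (R × T) where
  toFun p := Matrix.of fun i j => (p.1 i j, p.2 i j)
  map_one' := by
    ext i j
    · fin_cases i <;> fin_cases j <;> simp
    · fin_cases i <;> fin_cases j <;> simp
  map_mul' p q := by
    ext i j
    · simp [Matrix.mul_apply]
    · simp [Matrix.mul_apply]

private theorem dl_injective (R T : Type) [CommRing R] [CommRing T] :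
    Function.Injective (dl R T) := by
  intro p q h
  refine Prod.ext ?_ ?_
  · ext i j
    exact congrArg Prod.fst (congrFun (congrFun h i) j)
  · ext i j
    exact congrArg Prod.snd (congrFun (congrFun h i) j)

/-- pairs of invertible matrices -/
private theorem exists_pair {K R T : Type} [Group K] [CommRing R] [CommRing T]
    (α : K →* GL (Fin 2) R) (β : K →* GL (Fin 2) T) :
    ∃ γ : K →* GL (Fin 2) (R × T), ∀ g, γ g = 1 → α g = 1 ∧ β g = 1 := by
  let γ : K →* GL (Fin 2) (R × T) :=
    (Units.map (dl R T)).comp (MulEquiv.prodUnits.symm.toMonoidHom.comp (α.prod β))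
  refine ⟨γ, fun g hg => ?_⟩
  have h1 : dl R T ((α g : Matrix (Fin 2) (Fin 2) R), (β g : Matrix (Fin 2) (Fin 2) T)) =
      dl R T 1 := by
    rw [map_one]
    exact congrArg (fun u : GL (Fin 2) (R × T) => (u : Matrix (Fin 2) (Fin 2) (R × T))) hg
  have h2 := dl_injective R T h1
  exact ⟨Units.ext (congrArg Prod.fst h2), Units.ext (congrArg Prod.snd h2)⟩

/-- `ℤ^k` in `GL₂` of a ring of characteristic two -/
private theorem exists_zk (k : ℕ) : ∃ (T : Type) (_ : CommRing T)
    (β : (Fin k → Multiplicative ℤ) →* GL (Fin 2) T), (2 : T) = 0 ∧ ∀ g, β g = 1 → g = 1 := by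
  let T := MonoidAlgebra (ZMod 2) (Fin k → Multiplicative ℤ)
  let o : (Fin k → Multiplicative ℤ) →* Tˣ :=
    (MonoidAlgebra.of (ZMod 2) (Fin k → Multiplicative ℤ)).toHomUnits
  refine ⟨T, inferInstance, (Units.map (Matrix.scalar (Fin 2) : T →+* _).toMonoidHom).comp o,
    ?_, fun g hg => ?_⟩
  · have h1 : (2 : ZMod 2) = 0 := rfl
    have h2 : algebraMap (ZMod 2) T 2 = algebraMap (ZMod 2) T 0 := congrArg _ h1
    rwa [map_ofNat, map_zero] at h2
  · have h1 : Matrix.scalar (Fin 2) (MonoidAlgebra.of (ZMod 2) (Fin k → Multiplicative ℤ) g) =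
        (1 : Matrix (Fin 2) (Fin 2) T) :=
      congrArg (fun u : GL (Fin 2) T => (u : Matrix (Fin 2) (Fin 2) T)) hg
    have h2 := congrFun (congrFun h1 0) 0
    rw [Matrix.scalar_apply, Matrix.diagonal_apply_eq, Matrix.one_apply_eq] at h2
    exact MonoidAlgebra.of_injective (R := ZMod 2) (h2.trans (map_one _).symm)

/-- **the linear groups satisfy `HW`** -/
theorem hw_vlin {F : Type} [Field F] [CharZero F] (hZ : HZ F) (hIso : HIso F) {K : Type} [Group K]
    (h : VLin F K) : HW K := by
  obtain ⟨ρ₀, R, _, n, hn, hR, ρ, m, d, τ, inj⟩ := h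
  intro k L _ tf N hN f hf
  obtain ⟨T, _, β, hT, hβ⟩ := exists_zk k
  intro j
  refine u_top hZ hIso tf (fun H hH => ?_) j
  let N' : Subgroup H := N.comap H.subtype
  have hN' : N'.FiniteIndex := finiteIndex_comap' _ N
  let f' : N' →* K × (Fin k → Multiplicative ℤ) := f.comp (H.subtype.subgroupComap N)
  have hf' : Function.Injective f' := hf.comp fun a b hab =>
    Subtype.ext (Subtype.ext (congrArg (fun z : N => (z : L)) hab))
  let p : N' →* K := (MonoidHom.fst K (Fin k → Multiplicative ℤ)).comp f'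
  let q : N' →* (Fin k → Multiplicative ℤ) := (MonoidHom.snd K (Fin k → Multiplicative ℤ)).comp f'
  obtain ⟨γ, hγ⟩ := exists_pair (ρ.comp p) (β.comp q)
  refine ⟨N', hN', ρ₀.comp p, R × T, inferInstance, n * 2, by omega, ?_, γ, m, d,
    fun j => (τ j).comp p, fun g h0 h1 h2 => ?_⟩
  · refine Prod.ext ?_ ?_
    · show (((n * 2 : ℕ) : R × T)).1 = 0
      rw [Prod.fst_natCast, Nat.cast_mul, hR, zero_mul]
    · show (((n * 2 : ℕ) : R × T)).2 = 0
      rw [Prod.snd_natCast, Nat.cast_mul]
      have h3 : ((2 : ℕ) : T) = 0 := by exact_mod_cast hT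
      rw [h3, mul_zero]
  · obtain ⟨h3, h4⟩ := hγ g h1
    have h5 : p g = 1 := inj (p g) h0 h3 h2
    have h6 : q g = 1 := hβ (q g) h4
    apply hf'
    rw [map_one]
    exact Prod.ext h5 h6

/-- the linear groups belong to the class `VX` -/
theorem vx_vlin {F : Type} [Field F] [CharZero F] (hZ : HZ F) (hIso : HIso F) {K : Type} [Group K]
    (h : VLin F K) : VX K :=
  VX.base K (hw_vlin hZ hIso h)

end Pool.Agent.Lib.LinQ
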