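import Pool.Agent.Lib.LinQ.Defs
import Pool.Agent.Lib.LinQ.Ab

set_option autoImplicit false

/-!
# Theorem L: integrality of traces and determinants

PROOF. `int_two`: let `p` be a monic integral polynomial with `p(s) = 0`, `C` an algebraic closure of `F`. `s.charpoly` splits over `C` with roots `λ`, `μ`; trace `= λ + μ`, determinant `= λ μ`
(`Matrix.trace_eq_sum_roots_charpoly`, `Matrix.det_eq_prod_roots_charpoly` for `s.map (algebraMap F C)`, or the factorization of the monic quadratic polynomial by hand). A root `λ` has an eigenvector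
`v ≠ 0`, `s v = λ v` (`Matrix.exists_mulVec_eq_zero_iff`, `det (λ - s) = 0`), `0 = p(s) v = p(λ) v`, so `p(λ) = 0` and `λ` is integral over `ℤ`. Sums and products of integral elements are integral;
`isIntegral_algebraMap_iff` (injective map `F → C`). (Other way: `charpoly ∣ p ^ 2` and `integralClosure.mem_lifts_of_monic_of_dvd_map`.)
`int_of_bd`: the additive group `R` generated by `S` in the matrix ring is finitely generated (`fg_span_mat`) and a subring (`S` is closed under products: `AddSubgroup.closure_induction`, or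
`Subring.closure`/`Algebra.adjoin ℤ S` of a submonoid is the span: `Algebra.adjoin_eq_span_of_subset`, `Submonoid.closure_eq`). `IsIntegral.of_mem_of_fg`.
-/

namespace Pool.Agent.Lib.LinQ

open scoped MatrixGroups

private theorem Int2_root {C : Type} [Field C] (t : Matrix (Fin 2) (Fin 2) C)
    (h : IsIntegral ℤ t) (μ : C) (hμ : μ ∈ t.charpoly.roots) : IsIntegral ℤ μ := by
  obtain ⟨p, hp, hpt⟩ := h
  have h1 : μ ∈ spectrum C t :=
    Matrix.mem_spectrum_of_isRoot_charpoly ((Polynomial.mem_roots t.charpoly_monic.ne_zero).1 hμ)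
  have h2 : Polynomial.eval μ (p.map (Int.castRingHom C)) ∈
      spectrum C (Polynomial.aeval t (p.map (Int.castRingHom C))) :=
    spectrum.subset_polynomial_aeval t _ ⟨μ, h1, rfl⟩
  have h3 : Polynomial.aeval t (p.map (Int.castRingHom C)) = 0 := by
    rw [← hpt, Polynomial.aeval_def, Polynomial.eval₂_map]
    congr 1
  rw [h3, spectrum.zero_eq, Set.mem_singleton_iff, Polynomial.eval_map] at h2
  exact ⟨p, hp, by
    rw [← h2]
    congr 1⟩

theorem int_two {F : Type} [Field F] (s : Matrix (Fin 2) (Fin 2) F) (h : IsIntegral ℤ s) :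
    IsIntegral ℤ s.trace ∧ IsIntegral ℤ s.det := by
  let C := AlgebraicClosure F
  let f : F →+* C := algebraMap F C
  let t : Matrix (Fin 2) (Fin 2) C := s.map f
  have ht : IsIntegral ℤ t := by
    obtain ⟨p, hp, hps⟩ := h
    refine ⟨p, hp, ?_⟩
    have h1 := congrArg (f.mapMatrix (m := Fin 2)) hps
    rw [Polynomial.hom_eval₂, map_zero] at h1
    rw [← h1]
    congr 1
    exact RingHom.ext_int _ _
  have hr := Int2_root t ht
  have htr : IsIntegral ℤ t.trace := by
    rw [Matrix.trace_eq_sum_roots_charpoly]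
    exact IsIntegral.multiset_sum hr
  have hdt : IsIntegral ℤ t.det := by
    rw [Matrix.det_eq_prod_roots_charpoly]
    exact IsIntegral.multiset_prod hr
  have h1 : t.trace = f s.trace := by
    simp [t, Matrix.trace_fin_two]
  have h2 : t.det = f s.det := by
    rw [RingHom.map_det]
    rfl
  rw [h1] at htr
  rw [h2] at hdt
  exact ⟨(isIntegral_algebraMap_iff (algebraMap F C).injective).1 htr,
    (isIntegral_algebraMap_iff (algebraMap F C).injective).1 hdt⟩

theorem int_of_bd {F : Type} [Field F] (S : Subgroup (GL (Fin 2) F)) (hS : BdS S)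
    (s : GL (Fin 2) F) (hs : s ∈ S) : IsIntegral ℤ (s : Matrix (Fin 2) (Fin 2) F) := by
  obtain ⟨V, hV, hVS⟩ := hS
  let M : Submonoid (Matrix (Fin 2) (Fin 2) F) :=
    S.toSubmonoid.map (Units.coeHom (Matrix (Fin 2) (Fin 2) F))
  have hfg : (AddSubgroup.closure (M : Set (Matrix (Fin 2) (Fin 2) F))).FG := by
    refine fg_span_mat hV _ ?_
    rintro _ ⟨g, hg, rfl⟩ l j
    exact hVS g hg l j
  have hspan : (Algebra.adjoin ℤ (M : Set (Matrix (Fin 2) (Fin 2) F))).toSubmodule =
      Submodule.span ℤ (M : Set (Matrix (Fin 2) (Fin 2) F)) := by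
    rw [Algebra.adjoin_eq_span, Submonoid.closure_eq]
  have hfg2 : (Algebra.adjoin ℤ (M : Set (Matrix (Fin 2) (Fin 2) F))).toSubmodule.FG := by
    rw [hspan, Submodule.fg_iff_addSubgroup_fg, Submodule.span_int_eq_addSubgroupClosure]
    simpa using hfg
  refine IsIntegral.of_mem_of_fg _ hfg2 _ (Algebra.subset_adjoin ?_)
  exact ⟨s, hs, rfl⟩

end Pool.Agent.Lib.LinQ
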