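import Mathlib

set_option autoImplicit false

/-!
# Theorem L: finitely generated lattices over a valuation ring are free

PROOF (by hand). `W` is generated by `w₁, …, w_k`. Among the second coordinates choose one, `w_a 1`, which divides all the others (the valuation ring is totally ordered by divisibility:
`ValuationSubring.mem_or_inv_mem`, finite induction, or `ValuationRing`, `exists_max_image` with the valuation `O.valuation`); it is not `0` as `e₁ ∈ W`. Subtract multiples: `u_i = w_i - (w_i 1 / w_a 1) w_a` has second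
coordinate `0`; choose `u_b` with the greatest value of the first coordinate; it is not `0` as `W` contains `e₀, e₁` (so `W` is not contained in the line `F w_a`). Then `W = O w_a + O u_b`, `P` = the matrix with columns
`u_b`, `w_a` (upper triangular with nonzero diagonal, so invertible). `P⁻¹ v` = the coordinates.
(Other way: `O` is a local ring and `W` is a finitely generated torsion-free module over a valuation ring, so flat and free: `Module.free_of_flat_of_isLocalRing`.)
-/

namespace Pool.Agent.Lib.LinQ

open scoped MatrixGroups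

private theorem lat_free {F : Type} [Field F] (O : ValuationSubring F)
    (W : Submodule O (Fin 2 → F)) (hfg : W.FG) : Module.Finite O W ∧ Module.Free O W := by
  have hfin : Module.Finite O W := Module.Finite.iff_fg.mpr hfg
  have htf : Module.IsTorsionFree O W := inferInstance
  have hflat : Module.Flat O W := by
    rw [Module.Flat.flat_iff_torsion_eq_bot_of_isBezout,
      ← Submodule.isTorsionFree_iff_torsion_eq_bot]
    exact htf
  exact ⟨hfin, Module.free_of_flat_of_isLocalRing⟩

private theorem lat_sum {F : Type} [Field F] (O : ValuationSubring F)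
    (W : Submodule O (Fin 2 → F)) {ι : Type} [Fintype ι] (b : Module.Basis ι O W) (w : W) :
    (w : Fin 2 → F) = ∑ i, (b.repr w i : F) • ((b i : W) : Fin 2 → F) := by
  have h := congrArg W.subtype (b.sum_repr w)
  rw [map_sum] at h
  have h2 : (w : Fin 2 → F) = W.subtype w := rfl
  rw [h2, ← h]
  refine Finset.sum_congr rfl (fun i _ => ?_)
  rw [map_smul]
  rfl

theorem lat_basis {F : Type} [Field F] (O : ValuationSubring F) (W : Submodule O (Fin 2 → F))
    (hfg : W.FG) (h : ∀ i, Pi.single i (1 : F) ∈ W) :
    ∃ P : GL (Fin 2) F, ∀ v : Fin 2 → F,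
      v ∈ W ↔ ∀ i, ((P⁻¹ : GL (Fin 2) F) : Matrix (Fin 2) (Fin 2) F).mulVec v i ∈ O := by
  classical
  obtain ⟨hfin, hfree⟩ := lat_free O W hfg
  let b := Module.Free.chooseBasis O W
  have hli : LinearIndependent O (fun i => ((b i : W) : Fin 2 → F)) :=
    b.linearIndependent.map' W.subtype (Submodule.ker_subtype W)
  have hliF : LinearIndependent F (fun i => ((b i : W) : Fin 2 → F)) :=
    (LinearIndependent.iff_fractionRing O F).mp hli
  have hsub : ∀ w : W, (w : Fin 2 → F) ∈
      Submodule.span F (Set.range (fun i => ((b i : W) : Fin 2 → F))) := by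
    intro w
    rw [lat_sum O W b w]
    exact Submodule.sum_mem _ (fun i _ => Submodule.smul_mem _ _ (Submodule.subset_span ⟨i, rfl⟩))
  have hspan : ⊤ ≤ Submodule.span F (Set.range (fun i => ((b i : W) : Fin 2 → F))) := by
    intro v _
    have h1 : v = ∑ i, v i • (Pi.single i (1 : F) : Fin 2 → F) := by
      ext j
      simp [Finset.sum_apply, Pi.single_apply]
    rw [h1]
    exact Submodule.sum_mem _ (fun i _ => Submodule.smul_mem _ _ (hsub ⟨_, h i⟩))
  let B := Module.Basis.mk hliF hspan
  have hcard : Fintype.card (Module.Free.ChooseBasisIndex O W) = Fintype.card (Fin 2) := by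
    rw [← Module.finrank_eq_card_basis B]
    simp
  let e : Module.Free.ChooseBasisIndex O W ≃ Fin 2 := Fintype.equivOfCardEq hcard
  let C : Module.Basis (Fin 2) F (Fin 2 → F) := B.reindex e
  let Q : Module.Basis (Fin 2) F (Fin 2 → F) := Pi.basisFun F (Fin 2)
  have h12 : Q.toMatrix C * C.toMatrix Q = 1 := Q.toMatrix_mul_toMatrix_flip C
  have h21 : C.toMatrix Q * Q.toMatrix C = 1 := C.toMatrix_mul_toMatrix_flip Q
  refine ⟨⟨Q.toMatrix C, C.toMatrix Q, h12, h21⟩, fun v => ?_⟩
  have hinv : (((⟨Q.toMatrix C, C.toMatrix Q, h12, h21⟩ : GL (Fin 2) F)⁻¹ : GL (Fin 2) F) :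
      Matrix (Fin 2) (Fin 2) F) = C.toMatrix Q := rfl
  rw [hinv]
  have hmv : (C.toMatrix Q).mulVec v = C.repr v := by
    have := Module.Basis.toMatrix_mulVec_repr Q C v
    have h2 : ((Q.repr v : Fin 2 →₀ F) : Fin 2 → F) = v := by
      ext j; simp [Q]
    rwa [h2] at this
  rw [hmv]
  constructor
  · intro hv i
    have h1 : v = ∑ i, (b.repr ⟨v, hv⟩ i : F) • B i := by
      have h3 := lat_sum O W b ⟨v, hv⟩
      simpa [B] using h3
    have h2 : C.repr v i = (b.repr ⟨v, hv⟩ (e.symm i) : F) := by
      have h4 : B.repr v (e.symm i) = (b.repr ⟨v, hv⟩ (e.symm i) : F) := by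
        conv_lhs => rw [h1]
        simp [Finsupp.single_apply]
      simpa [C] using h4
    rw [h2]
    exact (b.repr ⟨v, hv⟩ (e.symm i)).2
  · intro hv
    have h1 : v = ∑ i, C.repr v i • C i := (C.sum_repr v).symm
    rw [h1]
    refine Submodule.sum_mem _ (fun i _ => ?_)
    have h2 : C i ∈ W := by
      have : C i = ((b (e.symm i) : W) : Fin 2 → F) := by simp [C, B]
      rw [this]
      exact (b (e.symm i)).2
    exact W.smul_mem (⟨C.repr v i, hv i⟩ : O) h2

end Pool.Agent.Lib.LinQ
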