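import Pool.Agent.Lib.LinQ.HwK
import Pool.Agent.Lib.SLT.YTop

set_option autoImplicit false

/-!
# Theorem L (MP_16fe43_al)

PROOF. `stV_of_fg`: `H ≤ G` f.g., torsion-free; `h H`: `K`, ...; `K` is f.g. (`Subgroup.fg_of_index_ne_zero`) and torsion-free. As in `z_app` / `free_lin` (SLT.ZApp, SLT.YLin): `ring_red hn hR fg ρ` gives the fields and `σ`;
`PFin (MonoidHom.pi σ)` (`pfin_pi`, `pfin_gl`), `PFin (MonoidHom.pi τ)` (`pfin_pi`, `pfin_quat`), `η = (pi σ).prod (pi τ)` (`pfin_prod`). `inj` for `η` and `ρ₀`: `hσ g` gives `M ≥ 1` with `ρ (g ^ M) = 1`, and `ρ₀ (g ^ M) = 1`,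
`τ j (g ^ M) = 1`, so `g ^ M = 1`, `g = 1` (torsion-free). `hw_lin`: `HW K`; `hw_virt`: `HW H`; `HW.stV`.
-/

namespace Pool.Agent.Lib.LinQ

open Pool.Agent.Lib.SLT
open Pool.Agent.Lib.BHS16 (TorsionFree LowKVanishing)
open scoped MatrixGroups Quaternion

/-- **Theorem L** -/
theorem l_final {G : Type} [Group G] (tf : TorsionFree G)
    (h : ∀ H : Subgroup G, H.FG → ∃ K : Subgroup H, K.FiniteIndex ∧
      ∃ (F : Type) (_ : Field F) (_ : QPlace F) (ρ₀ : K →* GL (Fin 2) F)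
        (R : Type) (_ : CommRing R) (n : ℕ) (ρ : K →* GL (Fin 2) R) (m : ℕ) (d : Fin m → ℕ)
        (τ : ∀ j, K →* (ℍ[FractionRing (MvPolynomial (Fin (d j)) ℤ)])ˣ),
        0 < n ∧ (n : R) = 0 ∧ ∀ g : K, ρ₀ g = 1 → ρ g = 1 → (∀ j, τ j g = 1) → g = 1) (k : ℕ) :
    LowKVanishing (G × (Fin k → Multiplicative ℤ)) := by
  have key : Pool.Agent.Lib.MP_16fe43_al.StV G := by
    refine stV_of_fg fun H hH => ?_
    have fgH : Group.FG H := (Group.fg_iff_subgroup_fg H).2 hH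
    have tfH : TorsionFree H :=
      Pool.Agent.Lib.BHS16.TorsionFree.of_injective H.subtype Subtype.coe_injective tf
    obtain ⟨K, hK, F, fF, hF, ρ₀, R, iR, n, ρ, m, d, τ, hn, hR, inj⟩ := h H hH
    have fgK : Group.FG K := Subgroup.fg_of_index_ne_zero K
    have tfK : TorsionFree K :=
      Pool.Agent.Lib.BHS16.TorsionFree.of_injective K.subtype Subtype.coe_injective tfH
    obtain ⟨κ, hκ, p, F', fF', hp, σ, hpr, hσ⟩ := ring_red hn hR fgK ρ
    have h1 : PFin (MonoidHom.pi σ) := pfin_pi σ fun i => by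
      have : Fact (p i).Prime := ⟨hpr i⟩
      exact pfin_gl (p := p i) fgK (σ i)
    have h2 : PFin (MonoidHom.pi τ) := pfin_pi _ fun j => pfin_quat (d := d j) fgK (τ j)
    refine Pool.Agent.Lib.PTX.HW.stV tfH (Pool.Agent.Lib.PTX.hw_virt K (hw_lin hF fgK ρ₀
      ((MonoidHom.pi σ).prod (MonoidHom.pi τ)) (pfin_prod h1 h2) ?_))
    intro g hg hg0
    rw [MonoidHom.prod_apply, Prod.mk_eq_one] at hg
    obtain ⟨M, hM, h3⟩ := hσ g fun i => congrFun hg.1 i
    have h4 : g ^ M = 1 := by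
      refine inj _ ?_ ?_ fun j => ?_
      · rw [map_pow, hg0, one_pow]
      · rw [map_pow]
        exact h3
      · have h5 : τ j g = 1 := congrFun hg.2 j
        rw [map_pow, h5, one_pow]
    exact tfK g (isOfFinOrder_iff_pow_eq_one.2 ⟨M, hM, h4⟩)
  exact key k

end Pool.Agent.Lib.LinQ
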