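import Mathlib

set_option autoImplicit false

/-!
# Theorem L: Noether normalization over `ℤ` up to a denominator

PROOF. `A = Algebra.adjoin ℚ S ⊆ F` (`F` is a `ℚ`-algebra: `DivisionRing.toRatAlgebra`), a finitely generated `ℚ`-algebra, a domain. `exists_finite_inj_algHom_of_fg ℚ A` (Mathlib.RingTheory.NoetherNormalization): `d`,
`g : MvPolynomial (Fin d) ℚ →ₐ[ℚ] A` injective and finite. `f = A.subtype ∘ g ∘ MvPolynomial.map (Int.castRingHom ℚ)`, injective (`MvPolynomial.map_injective`). For `s ∈ S` let `p : Polynomial (MvPolynomial (Fin d) ℚ)` be monic with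
root `s` (through `g`). There is `m_s ≥ 1` such that `m_s * p.coeff i` has integral coefficients for all `i` (finitely many rational coefficients, common denominator; `IsLocalization.integerNormalization`-like or
`MvPolynomial` induction: the set of the `q : MvPolynomial (Fin d) ℚ` such that some positive integral multiple is in the range of `map (Int.castRingHom ℚ)` is everything). `p.scaleRoots m_s` has coefficients
`p.coeff i * m_s ^ (n - i)`, which are integral (`n - i ≥ 1` for `i < n`, the leading coefficient is `1`), is monic and has the root `m_s s`. `m = ∏ s ∈ S, m_s` (a product of elements integral over `ℤ[t]` and integers is integral).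
-/

namespace Pool.Agent.Lib.LinQ

private theorem noe_den {d : ℕ} (q : MvPolynomial (Fin d) ℚ) :
    ∃ m : ℕ, 0 < m ∧ ∃ r : MvPolynomial (Fin d) ℤ,
      MvPolynomial.map (Int.castRingHom ℚ) r = (m : MvPolynomial (Fin d) ℚ) * q := by
  induction q using MvPolynomial.induction_on with
  | C a =>
    refine ⟨a.den, a.den_pos, MvPolynomial.C a.num, ?_⟩
    rw [MvPolynomial.map_C]
    rw [← map_natCast (MvPolynomial.C : ℚ →+* MvPolynomial (Fin d) ℚ), ← map_mul]
    congr 1
    simp [Rat.den_mul_eq_num]
  | add p q hp hq =>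
    obtain ⟨m, hm, r, hr⟩ := hp
    obtain ⟨m', hm', r', hr'⟩ := hq
    refine ⟨m * m', Nat.mul_pos hm hm', (m' : MvPolynomial (Fin d) ℤ) * r + (m : MvPolynomial (Fin d) ℤ) * r', ?_⟩
    rw [map_add, map_mul, map_mul, hr, hr', map_natCast, map_natCast]
    push_cast
    ring
  | mul_X p i hp =>
    obtain ⟨m, hm, r, hr⟩ := hp
    refine ⟨m, hm, r * MvPolynomial.X i, ?_⟩
    rw [map_mul, hr, MvPolynomial.map_X]
    ring

private theorem noe_den_fin {d : ℕ} {ι : Type} (T : Finset ι) (q : ι → MvPolynomial (Fin d) ℚ) :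
    ∃ m : ℕ, 0 < m ∧ ∀ i ∈ T, ∃ r : MvPolynomial (Fin d) ℤ,
      MvPolynomial.map (Int.castRingHom ℚ) r = (m : MvPolynomial (Fin d) ℚ) * q i := by
  classical
  induction T using Finset.induction_on with
  | empty => exact ⟨1, one_pos, by simp⟩
  | insert a T ha ih =>
    obtain ⟨m, hm, h⟩ := ih
    obtain ⟨m', hm', r', hr'⟩ := noe_den (q a)
    refine ⟨m' * m, Nat.mul_pos hm' hm, ?_⟩
    intro i hi
    rcases Finset.mem_insert.1 hi with rfl | hi
    · refine ⟨(m : MvPolynomial (Fin d) ℤ) * r', ?_⟩
      rw [map_mul, hr', map_natCast]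
      push_cast
      ring
    · obtain ⟨r, hr⟩ := h i hi
      refine ⟨(m' : MvPolynomial (Fin d) ℤ) * r, ?_⟩
      rw [map_mul, hr, map_natCast]
      push_cast
      ring

theorem noe_z {F : Type} [Field F] [CharZero F] (S : Finset F) :
    ∃ (d : ℕ) (f : MvPolynomial (Fin d) ℤ →+* F) (m : ℕ), Function.Injective f ∧ 0 < m ∧
      ∀ s ∈ S, f.IsIntegralElem ((m : F) * s) := by
  classical
  set A := Algebra.adjoin ℚ (S : Set F) with hA
  have : Algebra.FiniteType ℚ A := by
    rw [← Subalgebra.fg_iff_finiteType]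
    exact ⟨S, rfl⟩
  obtain ⟨d, g, hg, hint⟩ := exists_integral_inj_algHom_of_fg ℚ A
  let f : MvPolynomial (Fin d) ℤ →+* F :=
    (A.val.toRingHom.comp g.toRingHom).comp (MvPolynomial.map (Int.castRingHom ℚ))
  have hf : Function.Injective f := by
    have h1 : Function.Injective (MvPolynomial.map (σ := Fin d) (Int.castRingHom ℚ)) :=
      MvPolynomial.map_injective _ (RingHom.injective_int (Int.castRingHom ℚ))
    intro a b hab
    exact h1 (hg (Subtype.val_injective hab))
  have key : ∀ s ∈ S, ∃ m : ℕ, 0 < m ∧ f.IsIntegralElem ((m : F) * s) := by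
    intro s hs
    obtain ⟨p, hp, hps⟩ := hint ⟨s, Algebra.subset_adjoin hs⟩
    obtain ⟨m, hm, hmr⟩ := noe_den_fin (Finset.range (p.natDegree + 1)) p.coeff
    have hmon : (p.scaleRoots (m : MvPolynomial (Fin d) ℚ)).Monic :=
      (Polynomial.monic_scaleRoots_iff _).2 hp
    have hlift : p.scaleRoots (m : MvPolynomial (Fin d) ℚ) ∈
        Polynomial.lifts (MvPolynomial.map (σ := Fin d) (Int.castRingHom ℚ)) := by
      rw [Polynomial.lifts_iff_coeff_lifts]
      intro i
      rw [Polynomial.coeff_scaleRoots]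
      rcases lt_trichotomy i p.natDegree with hi | hi | hi
      · obtain ⟨r, hr⟩ := hmr i (Finset.mem_range.2 (by omega))
        refine ⟨r * (m : MvPolynomial (Fin d) ℤ) ^ (p.natDegree - i - 1), ?_⟩
        rw [map_mul, hr, map_pow, map_natCast]
        obtain ⟨e, he⟩ : ∃ e, p.natDegree - i = e + 1 := ⟨p.natDegree - i - 1, by omega⟩
        rw [he]
        simp only [Nat.add_sub_cancel]
        ring
      · rw [hi, hp.coeff_natDegree, Nat.sub_self, pow_zero, mul_one]
        exact ⟨1, map_one _⟩
      · rw [Polynomial.coeff_eq_zero_of_natDegree_lt hi, zero_mul]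
        exact ⟨0, map_zero _⟩
    obtain ⟨q, hq, -, hqm⟩ := Polynomial.lifts_and_natDegree_eq_and_monic hlift hmon
    refine ⟨m, hm, q, hqm, ?_⟩
    have h1 : Polynomial.eval₂ f ((m : F) * s) q =
        Polynomial.eval₂ (A.val.toRingHom.comp g.toRingHom) ((m : F) * s)
          (p.scaleRoots (m : MvPolynomial (Fin d) ℚ)) := by
      rw [← hq, Polynomial.eval₂_map]
    rw [h1]
    have h2 : Polynomial.eval₂ (A.val.toRingHom.comp g.toRingHom) s p = 0 := by
      have := congrArg A.val.toRingHom hps
      rw [map_zero, Polynomial.hom_eval₂] at this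
      exact this
    have h3 := Polynomial.scaleRoots_eval₂_eq_zero (A.val.toRingHom.comp g.toRingHom) (s := (m : MvPolynomial (Fin d) ℚ)) h2
    rw [map_natCast] at h3
    exact h3
  choose! m hm hmi using key
  refine ⟨d, f, ∏ s ∈ S, m s, hf, Finset.prod_pos fun s hs => hm s hs, ?_⟩
  intro s hs
  have h1 : ((∏ t ∈ S, m t : ℕ) : F) * s = f ((∏ t ∈ S.erase s, m t : ℕ) : MvPolynomial (Fin d) ℤ) * ((m s : F) * s) := by
    rw [← Finset.mul_prod_erase S m hs, map_natCast]
    push_cast
    ring
  rw [h1]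
  exact RingHom.IsIntegralElem.mul f (RingHom.isIntegralElem_map f) (hmi s hs)

end Pool.Agent.Lib.LinQ
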