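import Pool.Agent.Lib.PrD.ValExt
import Pool.Agent.Lib.LinQ.DegZ
import Mathlib.FieldTheory.Minpoly.IsIntegrallyClosed
import Mathlib.RingTheory.Polynomial.UniqueFactorization

set_option autoImplicit false

/-!
# Theorem L: the places at infinity

PROOF (compare `fin_poles` in `Pool/Agent/Lib/PrD/FinPoles.lean`). `B = MvPolynomial (Fin d) ℤ`, `K` has characteristic `0`, so `L / K` is separable. Let `ω` be a `K`-basis of `L` consisting of elements integral over `B`
(`Module.finBasis K L`, multiply by denominators: `exists_integral_multiples`, `Module.Basis.unitsSMul`/`isUnitSMul`). The trace form `(x, y) ↦ Tr (x y)` is nondegenerate (`traceForm_nondegenerate K L`), so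
`τ : L →+ (ι → K)`, `τ a j = Tr (a ω_j)` is injective. If `a` is integral over `B`, `Tr (a ω_j) ∈ B` (`Algebra.isIntegral_trace`, `B` integrally closed: a UFD).
Case `d = 0`: `m = 0`; `B = ℤ` is finitely generated as an additive group (all elements have total degree `0`: `fg_degZ 0 0`), so `V = {a | τ a ∈ (algebraMap '' B)^ι}` (`fg_comap`).
Case `d > 0`: `v` from `exists_degZ`, `A = v.valuationSubring`, a discrete valuation ring (as in `fin_poles`: `v.IsNontrivial`), `u = (X 0)⁻¹ ∈` its maximal ideal, `dvr_ext A K L`: `m`, `O`, `c` with: `c i ^ N x ∈ O i` for all `i` implies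
`u ^ N x` integral over `A`. There is `M` with `u ^ M ω_j` integral over `A` for all `j` (`exists_integral_multiple` over `A`: some nonzero `a ∈ A` with `a ω_j` integral; `v a = exp (-k) `, so `u ^ k / a ∈ A`). So
`u ^ (N + M) Tr (x ω_j) = Tr (u ^ N x * u ^ M ω_j) ∈ A` (`Algebra.isIntegral_trace`, `A` integrally closed), `Tr (x ω_j) = algebraMap b`, `v (u ^ (N + M) b) = exp (totalDegree b - N - M) ≤ 1`, so `totalDegree b ≤ N + M`:
`V = {a | τ a ∈ (algebraMap '' V₀)^ι}`, `V₀` from `fg_degZ d (N + M)`.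
-/

namespace Pool.Agent.Lib.LinQ

open Pool.Agent.Lib.SLT WithZero MvPolynomial

private theorem trz_map {A B : Type} [AddCommGroup A] [AddCommGroup B] (f : A →+ B)
    {V : AddSubgroup A} (hV : V.FG) : (V.map f).FG := by
  classical
  obtain ⟨S, hS⟩ := hV
  refine ⟨S.image f, ?_⟩
  rw [Finset.coe_image, ← AddMonoidHom.map_closure, hS]

private theorem trz_pi {ι K : Type} [Finite ι] [AddCommGroup K] {V : AddSubgroup K} (hV : V.FG) :
    ∃ W : AddSubgroup (ι → K), W.FG ∧ ∀ f : ι → K, (∀ j, f j ∈ V) → f ∈ W := by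
  have h1 : (AddSubgroup.toIntSubmodule V).FG := by
    rw [Submodule.fg_iff_addSubgroup_fg]
    exact hV
  have h2 : (Submodule.pi Set.univ (fun _ : ι => AddSubgroup.toIntSubmodule V)).FG :=
    Submodule.fg_pi fun _ => h1
  refine ⟨(Submodule.pi Set.univ (fun _ : ι => AddSubgroup.toIntSubmodule V)).toAddSubgroup,
    (Submodule.fg_iff_addSubgroup_fg _).1 h2, fun f hf => ?_⟩
  show f ∈ Submodule.pi Set.univ (fun _ : ι => AddSubgroup.toIntSubmodule V)
  rw [Submodule.mem_pi]
  intro j _
  exact hf j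

/-- the elements whose traces against a basis are in a finitely generated group -/
private theorem trz_main {B K L ι : Type} [Finite ι] [CommRing B] [Field K] [Algebra B K] [Field L]
    [Algebra K L] [FiniteDimensional K L] [Algebra.IsSeparable K L] (w : Module.Basis ι K L)
    {V : AddSubgroup B} (hV : V.FG) :
    ∃ V' : AddSubgroup L, V'.FG ∧ ∀ x : L,
      (∀ j, ∃ b ∈ V, algebraMap B K b = Algebra.trace K L (x * w j)) → x ∈ V' := by
  have h1 : (V.map (algebraMap B K).toAddMonoidHom).FG := trz_map _ hV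
  obtain ⟨W, hW, hW'⟩ := trz_pi (ι := ι) h1
  let τ : L →+ (ι → K) :=
    { toFun := fun x j => Algebra.trace K L (x * w j)
      map_zero' := by
        funext j
        simp
      map_add' := by
        intro x y
        funext j
        simp [add_mul] }
  have hτ : Function.Injective τ := by
    rw [injective_iff_map_eq_zero]
    intro x hx
    have h2 : Algebra.traceForm K L x = 0 := by
      apply w.ext
      intro j
      have h3 := congrFun hx j
      rw [Algebra.traceForm_apply, LinearMap.zero_apply]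
      exact h3
    have h3 := traceForm_nondegenerate K L
    exact h3.1 x (fun y => by rw [h2, LinearMap.zero_apply])
  refine ⟨W.comap τ, fg_comap τ hτ hW, fun x hx => ?_⟩
  rw [AddSubgroup.mem_comap]
  apply hW'
  intro j
  obtain ⟨b, hb, hb'⟩ := hx j
  exact ⟨b, hb, hb'⟩

theorem poles_z (d : ℕ) (K L : Type) [Field K] [Algebra (MvPolynomial (Fin d) ℤ) K]
    [IsFractionRing (MvPolynomial (Fin d) ℤ) K] [Field L] [Algebra K L]
    [Algebra (MvPolynomial (Fin d) ℤ) L] [IsScalarTower (MvPolynomial (Fin d) ℤ) K L]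
    [FiniteDimensional K L] :
    ∃ (m : ℕ) (O : Fin m → Subring L) (c : Fin m → Lˣ), (∀ i, DVal (O i) (c i)) ∧
      ∀ N : ℕ, ∃ V : AddSubgroup L, V.FG ∧ ∀ x : L, IsIntegral (MvPolynomial (Fin d) ℤ) x →
        (∀ i, (c i : L) ^ N * x ∈ O i) → x ∈ V := by
  have hch : CharZero K :=
    charZero_of_injective_algebraMap (IsFractionRing.injective (MvPolynomial (Fin d) ℤ) K)
  obtain ⟨s, w, hw⟩ := FiniteDimensional.exists_is_basis_integral (MvPolynomial (Fin d) ℤ) K (L := L)
  have htr : ∀ x : L, IsIntegral (MvPolynomial (Fin d) ℤ) x → ∀ j, ∃ b : MvPolynomial (Fin d) ℤ,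
      algebraMap _ K b = Algebra.trace K L (x * w j) := by
    intro x hx j
    have h1 : IsIntegral (MvPolynomial (Fin d) ℤ) (Algebra.trace K L (x * w j)) :=
      Algebra.isIntegral_trace (hx.mul (hw j))
    exact IsIntegrallyClosed.isIntegral_iff.1 h1
  rcases d with _ | d
  · refine ⟨0, Fin.elim0, Fin.elim0, fun i => i.elim0, fun N => ?_⟩
    obtain ⟨V, hV, hV'⟩ := fg_degZ 0 0
    obtain ⟨V', hV1, hV2⟩ := trz_main w hV
    refine ⟨V', hV1, fun x hx _ => hV2 x fun j => ?_⟩
    obtain ⟨b, hb⟩ := htr x hx j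
    refine ⟨b, hV' b ?_, hb⟩
    have : b.totalDegree = 0 := by
      rw [eq_C_of_isEmpty b]
      exact totalDegree_C _
    exact this.le
  obtain ⟨v, hv⟩ := exists_degZ (Fin (d + 1)) K
  have hX0 : (X 0 : MvPolynomial (Fin (d + 1)) ℤ) ≠ 0 := X_ne_zero 0
  have hvX : v (algebraMap (MvPolynomial (Fin (d + 1)) ℤ) K (X 0)) = exp (1 : ℤ) := by
    rw [hv _ hX0, totalDegree_X]
    rfl
  have hvu : v (algebraMap (MvPolynomial (Fin (d + 1)) ℤ) K (X 0))⁻¹ = exp (-1 : ℤ) := by
    rw [map_inv₀, hvX, exp_neg]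
  have hn : v.IsNontrivial := by
    refine ⟨algebraMap (MvPolynomial (Fin (d + 1)) ℤ) K (X 0), ?_, ?_⟩
    · rw [hvX]; exact exp_ne_zero
    · rw [hvX, ← exp_zero]
      exact fun h => by simpa using exp_injective h
  set u : K := (algebraMap (MvPolynomial (Fin (d + 1)) ℤ) K (X 0))⁻¹
  have hu0 : u ≠ 0 :=
    inv_ne_zero ((map_ne_zero_iff _ (IsFractionRing.injective _ K)).2 hX0)
  clear_value u
  let : Algebra v.valuationSubring L :=
    ((algebraMap K L).comp (algebraMap v.valuationSubring K)).toAlgebra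
  have : IsScalarTower v.valuationSubring K L := IsScalarTower.of_algebraMap_eq' rfl
  obtain ⟨m, O, c, hO, hint⟩ := PrD.dvr_ext v.valuationSubring K L
  refine ⟨m, O, c, hO, fun N => ?_⟩
  -- a power of `u` makes the basis integral over `A`
  obtain ⟨M, hM⟩ : ∃ M : ℕ, ∀ j, IsIntegral v.valuationSubring (algebraMap K L (u ^ M) * w j) := by
    classical
    obtain ⟨y, hy0, hy⟩ := exists_integral_multiples v.valuationSubring K
      (Finset.univ.image w : Finset L)
    have hy0' : (y : K) ≠ 0 := fun h => hy0 (Subtype.ext h)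
    have hvy : v (y : K) ≠ 0 := (Valuation.ne_zero_iff _).2 hy0'
    have hvy1 : v (y : K) ≤ 1 := y.2
    obtain ⟨k, hk⟩ : ∃ k : ℤ, v (y : K) = exp k := ⟨log (v (y : K)), (exp_log hvy).symm⟩
    have hk0 : k ≤ 0 := by
      rw [hk, ← exp_zero, exp_le_exp] at hvy1
      exact hvy1
    refine ⟨k.natAbs, fun j => ?_⟩
    have h1 : v (u ^ k.natAbs * (y : K)⁻¹) ≤ 1 := by
      rw [map_mul, map_pow, map_inv₀, hvu, hk, ← exp_nsmul, ← exp_neg, ← exp_add, ← exp_zero,
        exp_le_exp]
      have : (k.natAbs : ℤ) = -k := by omega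
      simp only [nsmul_eq_mul, mul_neg, mul_one]
      omega
    have h2 := hy (w j) (Finset.mem_image_of_mem _ (Finset.mem_univ j))
    obtain ⟨a, ha⟩ : ∃ a : v.valuationSubring, u ^ k.natAbs = (a : K) * (y : K) := by
      refine ⟨⟨u ^ k.natAbs * (y : K)⁻¹, h1⟩, ?_⟩
      show u ^ k.natAbs = u ^ k.natAbs * (y : K)⁻¹ * (y : K)
      rw [mul_assoc, inv_mul_cancel₀ hy0', mul_one]
    have h3 : algebraMap K L (u ^ k.natAbs) * w j = a • (y • w j) := by
      rw [Algebra.smul_def, Algebra.smul_def, ← mul_assoc, ha, map_mul]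
      rfl
    rw [h3]
    exact h2.smul _
  obtain ⟨V, hV, hV'⟩ := fg_degZ (d + 1) (N + M)
  obtain ⟨V', hV1, hV2⟩ := trz_main w hV
  refine ⟨V', hV1, fun x hx hxO => hV2 x fun j => ?_⟩
  obtain ⟨b, hb⟩ := htr x hx j
  refine ⟨b, hV' b ?_, hb⟩
  by_cases hb0 : b = 0
  · rw [hb0, totalDegree_zero]; exact Nat.zero_le _
  have huA : v u ≤ 1 := by
    rw [hvu, ← exp_zero, exp_le_exp]; omega
  have hum : (⟨u, huA⟩ : v.valuationSubring) ∈
      IsLocalRing.maximalIdeal v.valuationSubring := by
    rw [Valuation.mem_maximalIdeal_iff]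
    show v u < 1
    rw [hvu, ← exp_zero, exp_lt_exp]; omega
  have h1 := hint _ hum N x hxO
  have h2 : IsIntegral v.valuationSubring (algebraMap K L (u ^ N) * x) := by
    rw [map_pow]; exact h1
  have h3 := Algebra.isIntegral_trace (L := K) (h2.mul (hM j))
  have h4 : Algebra.trace K L (algebraMap K L (u ^ N) * x * (algebraMap K L (u ^ M) * w j)) =
      u ^ (N + M) * algebraMap _ K b := by
    rw [hb]
    have h5 : algebraMap K L (u ^ N) * x * (algebraMap K L (u ^ M) * w j) =
        (u ^ (N + M)) • (x * w j) := by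
      rw [Algebra.smul_def, pow_add, map_mul]
      ring
    rw [h5, map_smul, smul_eq_mul]
  rw [h4] at h3
  obtain ⟨a, ha⟩ := IsIntegrallyClosed.isIntegral_iff.1 h3
  have h5 : v (u ^ (N + M) * algebraMap _ K b) ≤ 1 := by
    rw [← ha]
    exact a.2
  rw [map_mul, map_pow, hv b hb0, hvu, ← exp_nsmul, ← exp_add, ← exp_zero, exp_le_exp] at h5
  simp only [nsmul_eq_mul, mul_neg, mul_one] at h5
  push_cast at h5
  omega

end Pool.Agent.Lib.LinQ
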