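import Pool.Agent.Lib.LinQ.Defs
import Pool.Agent.Lib.LinQ.TrZ
import Pool.Agent.Lib.LinQ.FinZ
import Pool.Agent.Lib.LinQ.NoeZ

set_option autoImplicit false

/-!
# Theorem L: finitely generated domains of characteristic `0` have good finite sets of places

PROOF. `noe_z`: `d`, `f`, `m`. `B = MvPolynomial (Fin d) ℤ`, `K = FractionRing B`; `F` is an algebra over `B` by `f` and over `K` by `IsFractionRing.lift` (as in the docstring of `Pool/Agent/Lib/SLT/ZPlc.lean`; `IsScalarTower B K F`).
`E = IntermediateField.adjoin K S`, finite over `K`: the elements of `S` are algebraic over `K` (`m s` is integral over `B`; `IntermediateField.finiteDimensional_adjoin`). `Subring.closure S ≤ E.toSubring`; `φ` = the inclusion into `E`.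
`D = (m : B) ≠ 0`. Every element `x` of `Subring.closure S` satisfies: some `m ^ k x` is integral over `B` (`Subring.closure_induction`; sums: `k = k₁ + k₂`), as an element of `F`, so as an element of `E`
(`isIntegral_algHom_iff` / `isIntegral_algebraMap_iff`, `E → F` injective; `Algebra B E` through `K`, `IsScalarTower B K E`). Places: those of `fin_z d K E D` and of `poles_z d K E`, in one family
(`Fin (m₁ + m₂)`, `Fin.append`/`Fin.addCases`, or a finite sum type and `Finite.exists_equiv_fin`). For `N`: `fin_z` gives `P`; if `x = φ a` satisfies the bounds then `P x` is integral over `B`. Bounds for `P x` at the places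
`(O, c)` at infinity: `P` is a nonzero element of `E`, so `c ^ M P ∈ O` for some `M` (`DVal.fac`, `DVal.pow_mem`), the maximum over the finitely many places; so `c ^ (N + M) (P x) ∈ O`, and `P x ∈ V₀` for the group
`V₀` of `poles_z` for `N + M`. `V` = the image of `V₀` under `y ↦ P⁻¹ y` (`AddSubgroup.FG.map`).
-/

namespace Pool.Agent.Lib.LinQ

open Pool.Agent.Lib.SLT

/-- clearing denominators keeps integrality, for the elements of the closure -/
private theorem closure_int {B F : Type} [CommRing B] [Field F] [Algebra B F] (S : Finset F) (m : ℕ)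
    (hS : ∀ s ∈ S, IsIntegral B ((m : F) * s)) (x : F) (hx : x ∈ Subring.closure (S : Set F)) :
    ∃ k : ℕ, IsIntegral B (algebraMap B F (m : B) ^ k * x) := by
  have hD : IsIntegral B (algebraMap B F (m : B)) := isIntegral_algebraMap
  induction hx using Subring.closure_induction with
  | mem x hx =>
    refine ⟨1, ?_⟩
    rw [pow_one, map_natCast]
    exact hS x hx
  | zero => exact ⟨0, by rw [mul_zero]; exact isIntegral_zero⟩
  | one => exact ⟨0, by rw [pow_zero, one_mul]; exact isIntegral_one⟩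
  | add x y hx hy h1 h2 =>
    obtain ⟨k, hk⟩ := h1
    obtain ⟨l, hl⟩ := h2
    refine ⟨k + l, ?_⟩
    have e : algebraMap B F (m : B) ^ (k + l) * (x + y)
        = algebraMap B F (m : B) ^ l * (algebraMap B F (m : B) ^ k * x)
          + algebraMap B F (m : B) ^ k * (algebraMap B F (m : B) ^ l * y) := by ring
    rw [e]
    exact ((hD.pow l).mul hk).add ((hD.pow k).mul hl)
  | neg x hx h1 =>
    obtain ⟨k, hk⟩ := h1
    refine ⟨k, ?_⟩
    rw [mul_neg]
    exact hk.neg
  | mul x y hx hy h1 h2 =>
    obtain ⟨k, hk⟩ := h1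
    obtain ⟨l, hl⟩ := h2
    refine ⟨k + l, ?_⟩
    have e : algebraMap B F (m : B) ^ (k + l) * (x * y)
        = (algebraMap B F (m : B) ^ k * x) * (algebraMap B F (m : B) ^ l * y) := by ring
    rw [e]
    exact hk.mul hl

/-- a nonzero element has a pole of bounded order at a discrete place -/
private theorem exists_pow_mem {L : Type} [Field L] {O : Subring L} {c : Lˣ} (h : DVal O c) (x : L) :
    ∃ M : ℕ, ∀ j : ℕ, M ≤ j → (c : L) ^ j * x ∈ O := by
  by_cases h0 : x = 0
  · refine ⟨0, fun j _ => ?_⟩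
    rw [h0, mul_zero]
    exact O.zero_mem
  obtain ⟨n, u, hu, -, -, hxu⟩ := h.fac x h0
  refine ⟨(-n).toNat, fun j hj => ?_⟩
  have e : (c : L) ^ j * x = u * (c : L) ^ ((j : ℤ) + n) := by
    rw [hxu, zpow_add₀ c.ne_zero, zpow_natCast]
    ring
  rw [e]
  refine O.mul_mem hu ((h.pow_mem _).2 ?_)
  omega

/-- the combination of the two families of places -/
private theorem plc_aux (d : ℕ) (K L : Type) [Field K] [Algebra (MvPolynomial (Fin d) ℤ) K]
    [IsFractionRing (MvPolynomial (Fin d) ℤ) K] [Field L] [Algebra K L]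
    [Algebra (MvPolynomial (Fin d) ℤ) L] [IsScalarTower (MvPolynomial (Fin d) ℤ) K L]
    [FiniteDimensional K L] (D : MvPolynomial (Fin d) ℤ) (hD : D ≠ 0) (A : Subring L)
    (hA : ∀ x ∈ A, ∃ k : ℕ, IsIntegral (MvPolynomial (Fin d) ℤ)
      (algebraMap (MvPolynomial (Fin d) ℤ) L D ^ k * x)) : PlcZ A := by
  obtain ⟨m₁, O₁, c₁, h₁, hfin⟩ := fin_z d K L D hD
  obtain ⟨m₂, O₂, c₂, h₂, hpol⟩ := poles_z d K L
  have hinj : Function.Injective (algebraMap (MvPolynomial (Fin d) ℤ) L) := by
    rw [IsScalarTower.algebraMap_eq (MvPolynomial (Fin d) ℤ) K L]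
    exact (algebraMap K L).injective.comp (IsFractionRing.injective (MvPolynomial (Fin d) ℤ) K)
  refine ⟨m₁ + m₂, Fin.append O₁ O₂, Fin.append c₁ c₂, ?_, fun N => ?_⟩
  · intro i
    refine Fin.addCases (fun i => ?_) (fun i => ?_) i
    · rw [Fin.append_left, Fin.append_left]
      exact h₁ i
    · rw [Fin.append_right, Fin.append_right]
      exact h₂ i
  obtain ⟨P, hP0, hP⟩ := hfin N
  set p : L := algebraMap (MvPolynomial (Fin d) ℤ) L P with hp
  have hp0 : p ≠ 0 := by
    rw [hp, Ne, map_eq_zero_iff _ hinj]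
    exact hP0
  choose M hM using fun i => exists_pow_mem (h₂ i) p
  let M' : ℕ := ∑ i, M i
  have hM' : ∀ i, M i ≤ M' := fun i => Finset.single_le_sum (f := M) (fun _ _ => Nat.zero_le _) (Finset.mem_univ i)
  obtain ⟨V₀, hV₀, hV⟩ := hpol (N + M')
  have hfg : (V₀.map (AddMonoidHom.mulLeft p⁻¹)).FG := by
    classical
    obtain ⟨T, hT⟩ := hV₀
    refine ⟨T.image (AddMonoidHom.mulLeft p⁻¹), ?_⟩
    rw [Finset.coe_image, ← AddMonoidHom.map_closure, hT]
  refine ⟨V₀.map (AddMonoidHom.mulLeft p⁻¹), hfg, fun x hx hb => ?_⟩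
  have e1 : IsIntegral (MvPolynomial (Fin d) ℤ) (p * x) := by
    refine hP x (hA x hx) fun i => ?_
    have := hb (Fin.castAdd m₂ i)
    rwa [Fin.append_left, Fin.append_left] at this
  have e2 : p * x ∈ V₀ := by
    refine hV _ e1 fun i => ?_
    have h3 := hb (Fin.natAdd m₁ i)
    rw [Fin.append_right, Fin.append_right] at h3
    have e : (c₂ i : L) ^ (N + M') * (p * x) = ((c₂ i : L) ^ M' * p) * ((c₂ i : L) ^ N * x) := by
      ring
    rw [e]
    exact (O₂ i).mul_mem (hM i M' (hM' i)) h3
  rw [AddSubgroup.mem_map]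
  refine ⟨p * x, e2, ?_⟩
  rw [AddMonoidHom.coe_mulLeft, inv_mul_cancel_left₀ hp0]

theorem plc_z {F : Type} [Field F] [CharZero F] (S : Finset F) :
    ∃ (E : Type) (_ : Field E) (φ : Subring.closure (S : Set F) →+* E),
      Function.Injective φ ∧ PlcZ φ.range := by
  classical
  obtain ⟨d, f, m, hf, hm, hint⟩ := noe_z S
  let iBF : Algebra (MvPolynomial (Fin d) ℤ) F := f.toAlgebra
  let iKF : Algebra (FractionRing (MvPolynomial (Fin d) ℤ)) F :=
    (IsFractionRing.lift (A := MvPolynomial (Fin d) ℤ) (K := FractionRing (MvPolynomial (Fin d) ℤ))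
      (L := F) (g := f) hf).toAlgebra
  have tBKF : IsScalarTower (MvPolynomial (Fin d) ℤ) (FractionRing (MvPolynomial (Fin d) ℤ)) F :=
    IsScalarTower.of_algebraMap_eq fun b => (IsFractionRing.lift_algebraMap hf b).symm
  let E : IntermediateField (FractionRing (MvPolynomial (Fin d) ℤ)) F :=
    IntermediateField.adjoin (FractionRing (MvPolynomial (Fin d) ℤ)) (S : Set F)
  have hS : ∀ s ∈ S, IsIntegral (MvPolynomial (Fin d) ℤ) ((m : F) * s) := fun s hs => hint s hs
  have hm0 : (m : F) ≠ 0 := Nat.cast_ne_zero.2 hm.ne'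
  have hSK : ∀ s ∈ (S : Set F), IsIntegral (FractionRing (MvPolynomial (Fin d) ℤ)) s := by
    intro s hs
    have h1 : IsIntegral (FractionRing (MvPolynomial (Fin d) ℤ)) ((m : F) * s) := (hS s hs).tower_top
    have h2 : IsIntegral (FractionRing (MvPolynomial (Fin d) ℤ)) ((m : F)⁻¹) := by
      have e : (m : F)⁻¹ = algebraMap (FractionRing (MvPolynomial (Fin d) ℤ)) F
          ((m : FractionRing (MvPolynomial (Fin d) ℤ))⁻¹) := by
        rw [map_inv₀, map_natCast]
      rw [e]
      exact isIntegral_algebraMap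
    have h3 := h2.mul h1
    rwa [inv_mul_cancel_left₀ hm0] at h3
  have hfd : FiniteDimensional (FractionRing (MvPolynomial (Fin d) ℤ)) E :=
    IntermediateField.finiteDimensional_adjoin hSK
  have hle : Subring.closure (S : Set F) ≤ E.toSubring := by
    rw [Subring.closure_le]
    intro s hs
    exact IntermediateField.subset_adjoin _ _ hs
  refine ⟨E, inferInstance, Subring.inclusion hle, Subring.inclusion_injective hle, ?_⟩
  refine plc_aux d (FractionRing (MvPolynomial (Fin d) ℤ)) E (m : MvPolynomial (Fin d) ℤ)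
    (Nat.cast_ne_zero.2 hm.ne') _ ?_
  rintro _ ⟨x, rfl⟩
  obtain ⟨k, hk⟩ := closure_int S m hS x.1 x.2
  refine ⟨k, ?_⟩
  have hinjE : Function.Injective (algebraMap E F) := (algebraMap E F).injective
  have tBEF : IsScalarTower (MvPolynomial (Fin d) ℤ) E F := by
    refine IsScalarTower.of_algebraMap_eq fun b => ?_
    rw [IsScalarTower.algebraMap_apply (MvPolynomial (Fin d) ℤ) (FractionRing (MvPolynomial (Fin d) ℤ)) E,
      IsScalarTower.algebraMap_apply (MvPolynomial (Fin d) ℤ) (FractionRing (MvPolynomial (Fin d) ℤ)) F]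
    rfl
  rw [← isIntegral_algebraMap_iff hinjE, map_mul, map_pow,
    ← IsScalarTower.algebraMap_apply (MvPolynomial (Fin d) ℤ) E F]
  exact hk

end Pool.Agent.Lib.LinQ
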