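import Pool.Agent.Lib.LinQ.Int2
import Pool.Agent.Lib.LinQ.QPl
import Pool.Agent.Lib.LinQ.Lat

set_option autoImplicit false

/-!
# Theorem L: reduction to `GL₂(ℚ)`

PROOF. `O`, `π` from `hF`; `V` from `hS`. `W` = the `O`-submodule of `Fin 2 → F` generated by the columns `s e_j`, `s ∈ S`: it is finitely generated: the additive group generated by the columns is contained in `{v | v 0, v 1 ∈ V}`, so
finitely generated (`fg_mono`), and its generators generate `W` over `O`. `e_j ∈ W` (`s = 1`), `s W ⊆ W`. `lat_basis`: `P`. For `s ∈ S` the matrix `P⁻¹ s P` has entries in `O`: `P e_j ∈ W`, `s P e_j ∈ W`. So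
`ψ : S →* GL (Fin 2) O` (`MonoidHom.toHomUnits` of `s ↦ P⁻¹ s P` as a matrix over `O`, or `glMap_range` in SLT.ZMat for `O.toSubring`), `σ = GL.map π ∘ ψ`. `BdS σ.range`: `fg_conj` gives `V'` for `P⁻¹ s P`; `V'' = (V'.comap (O → F)).map π`
(`fg_comap`, `AddSubgroup.FG.map`). If `σ s = 1`: the trace of `s` is the trace of `P⁻¹ s P`, so `∈ O` with `π (trace) = 2`; it is integral (`int_of_bd`, `int_two`), so an integer `n` (`pl_int`), `π n = n`, so `n = 2`. Same for `det`.
-/

namespace Pool.Agent.Lib.LinQ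

open scoped MatrixGroups

private theorem Red_lattice {F : Type} [Field F] (O : ValuationSubring F)
    (S : Subgroup (GL (Fin 2) F)) (hS : BdS S) :
    ∃ W : Submodule O (Fin 2 → F), W.FG ∧ (∀ i, Pi.single i (1 : F) ∈ W) ∧
      ∀ s ∈ S, ∀ v ∈ W, (s : Matrix (Fin 2) (Fin 2) F).mulVec v ∈ W := by
  classical
  obtain ⟨V, hVfg, hV⟩ := hS
  let M : AddSubgroup (Matrix (Fin 2) (Fin 2) F) :=
    AddSubgroup.closure {m | ∃ s ∈ S, m = ((s : GL (Fin 2) F) : Matrix (Fin 2) (Fin 2) F)}
  have hM : M.FG := fg_span_mat hVfg _ (by rintro _ ⟨s, hs, rfl⟩; exact hV s hs)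
  have hMmul : ∀ s ∈ S, ∀ m ∈ M, (s : Matrix (Fin 2) (Fin 2) F) * m ∈ M := by
    intro s hs m hm
    induction hm using AddSubgroup.closure_induction with
    | mem x hx =>
      obtain ⟨t, ht, rfl⟩ := hx
      exact AddSubgroup.subset_closure ⟨s * t, S.mul_mem hs ht, by simp⟩
    | zero => rw [mul_zero]; exact zero_mem _
    | add x y _ _ hx hy => rw [mul_add]; exact add_mem hx hy
    | neg x _ hx => rw [mul_neg]; exact neg_mem hx
  refine ⟨Submodule.span O {v : Fin 2 → F | ∃ m ∈ M, ∃ j, v = fun i => m i j}, ?_, ?_, ?_⟩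
  · obtain ⟨T, hT⟩ := hM
    have e : Submodule.span O {v : Fin 2 → F | ∃ m ∈ M, ∃ j, v = fun i => m i j} =
        Submodule.span O (Set.image2 (fun (m : Matrix (Fin 2) (Fin 2) F) (j : Fin 2) =>
          (fun i => m i j : Fin 2 → F)) (T : Set (Matrix (Fin 2) (Fin 2) F)) Set.univ) := by
      apply le_antisymm
      · rw [Submodule.span_le]
        rintro v ⟨m, hm, j, rfl⟩
        rw [← hT] at hm
        induction hm using AddSubgroup.closure_induction with
        | mem x hx => exact Submodule.subset_span ⟨x, hx, j, Set.mem_univ _, rfl⟩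
        | zero =>
          have h0 : (fun i => (0 : Matrix (Fin 2) (Fin 2) F) i j : Fin 2 → F) = 0 := rfl
          rw [h0]
          exact zero_mem _
        | add x y _ _ hx hy =>
          have h0 : (fun i => (x + y) i j : Fin 2 → F) = (fun i => x i j) + (fun i => y i j) := rfl
          rw [h0]
          exact add_mem hx hy
        | neg x _ hx =>
          have h0 : (fun i => (-x) i j : Fin 2 → F) = -(fun i => x i j) := rfl
          rw [h0]
          exact neg_mem hx
      · apply Submodule.span_mono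
        rintro v ⟨m, hm, j, _, rfl⟩
        refine ⟨m, ?_, j, rfl⟩
        rw [← hT]
        exact AddSubgroup.subset_closure hm
    rw [e]
    exact Submodule.fg_span (Set.Finite.image2 _ T.finite_toSet Set.finite_univ)
  · intro i
    apply Submodule.subset_span
    refine ⟨1, AddSubgroup.subset_closure ⟨1, S.one_mem, by simp⟩, i, ?_⟩
    funext k
    rw [Matrix.one_apply, Pi.single_apply]
  · intro s hs v hv
    induction hv using Submodule.span_induction with
    | mem x hx =>
      obtain ⟨m, hm, j, rfl⟩ := hx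
      apply Submodule.subset_span
      refine ⟨(s : Matrix (Fin 2) (Fin 2) F) * m, hMmul s hs m hm, j, ?_⟩
      funext i
      rw [Matrix.mul_apply]
      rfl
    | zero => rw [Matrix.mulVec_zero]; exact zero_mem _
    | add x y _ _ hx hy => rw [Matrix.mulVec_add]; exact add_mem hx hy
    | smul a x _ hx =>
      have h0 : (s : Matrix (Fin 2) (Fin 2) F).mulVec (a • x) =
          a • (s : Matrix (Fin 2) (Fin 2) F).mulVec x := by
        have h1 : a • x = (a : F) • x := rfl
        rw [h1, Matrix.mulVec_smul]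
        rfl
      rw [h0]
      exact Submodule.smul_mem _ _ hx

theorem red {F : Type} [Field F] (hF : QPlace F) (S : Subgroup (GL (Fin 2) F)) (hS : BdS S) :
    ∃ σ : S →* GL (Fin 2) ℚ, BdS σ.range ∧ ∀ s : S, σ s = 1 →
      ((s : GL (Fin 2) F) : Matrix (Fin 2) (Fin 2) F).trace = 2 ∧
        ((s : GL (Fin 2) F) : Matrix (Fin 2) (Fin 2) F).det = 1 := by
  classical
  obtain ⟨O, π, hπ⟩ := id hF
  obtain ⟨W, hWfg, hW1, hWs⟩ := Red_lattice O S hS
  obtain ⟨P, hP⟩ := lat_basis O W hWfg hW1
  have hPc : ∀ j, (P : Matrix (Fin 2) (Fin 2) F).mulVec (Pi.single j 1) ∈ W := by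
    intro j
    rw [hP]
    intro i
    rw [Matrix.mulVec_mulVec, ← Units.val_mul, inv_mul_cancel, Units.val_one, Matrix.one_mulVec,
      Pi.single_apply]
    split_ifs
    · exact O.one_mem
    · exact O.zero_mem
  have hN : ∀ s ∈ S, ∀ i j, (((P⁻¹ : GL (Fin 2) F) : Matrix (Fin 2) (Fin 2) F) *
      (s : Matrix (Fin 2) (Fin 2) F) * (P : Matrix (Fin 2) (Fin 2) F)) i j ∈ O := by
    intro s hs i j
    have h1 := (hP _).1 (hWs s hs _ (hPc j)) i
    rw [Matrix.mulVec_mulVec, Matrix.mulVec_mulVec, Matrix.mulVec_single_one] at h1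
    exact h1
  let ψ0 : S →* Matrix (Fin 2) (Fin 2) O :=
    { toFun := fun s => fun i j => ⟨_, hN (s : GL (Fin 2) F) s.2 i j⟩
      map_one' := by
        ext i j
        show (((P⁻¹ : GL (Fin 2) F) : Matrix (Fin 2) (Fin 2) F) *
          (((1 : S) : GL (Fin 2) F) : Matrix (Fin 2) (Fin 2) F) *
          (P : Matrix (Fin 2) (Fin 2) F)) i j = (((1 : Matrix (Fin 2) (Fin 2) O) i j : O) : F)
        rw [OneMemClass.coe_one, Units.val_one, mul_one, ← Units.val_mul, inv_mul_cancel,
          Units.val_one, Matrix.one_apply, Matrix.one_apply]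
        split_ifs <;> rfl
      map_mul' := by
        intro s t
        ext i j
        show (((P⁻¹ : GL (Fin 2) F) : Matrix (Fin 2) (Fin 2) F) *
          (((s * t : S) : GL (Fin 2) F) : Matrix (Fin 2) (Fin 2) F) *
          (P : Matrix (Fin 2) (Fin 2) F)) i j = _
        have e : (((P⁻¹ : GL (Fin 2) F) : Matrix (Fin 2) (Fin 2) F) *
          (((s * t : S) : GL (Fin 2) F) : Matrix (Fin 2) (Fin 2) F) *
          (P : Matrix (Fin 2) (Fin 2) F)) =
          (((P⁻¹ : GL (Fin 2) F) : Matrix (Fin 2) (Fin 2) F) *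
          ((s : GL (Fin 2) F) : Matrix (Fin 2) (Fin 2) F) * (P : Matrix (Fin 2) (Fin 2) F)) *
          (((P⁻¹ : GL (Fin 2) F) : Matrix (Fin 2) (Fin 2) F) *
          ((t : GL (Fin 2) F) : Matrix (Fin 2) (Fin 2) F) * (P : Matrix (Fin 2) (Fin 2) F)) := by
          simp only [← Units.val_mul, Subgroup.coe_mul]
          congr 1
          group
        rw [e, Matrix.mul_apply, Matrix.mul_apply]
        simp only [Fin.sum_univ_two]
        rfl }
  let ψ : S →* GL (Fin 2) O := MonoidHom.toHomUnits ψ0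
  let σ : S →* GL (Fin 2) ℚ := (Matrix.GeneralLinearGroup.map π).comp ψ
  have hσ : ∀ s : S, ∀ i j, (σ s : Matrix (Fin 2) (Fin 2) ℚ) i j = π (ψ0 s i j) := by
    intro s i j
    rfl
  refine ⟨σ, ?_, ?_⟩
  · obtain ⟨V, hVfg, hV⟩ := hS
    obtain ⟨V', hV'fg, hV'⟩ := fg_conj ((P⁻¹ : GL (Fin 2) F) : Matrix (Fin 2) (Fin 2) F)
      (P : Matrix (Fin 2) (Fin 2) F) hVfg
    have hinj : Function.Injective (O.subtype : O →+* F).toAddMonoidHom := fun a b h => by
      exact Subtype.ext h
    have hfg : ((V'.comap (O.subtype : O →+* F).toAddMonoidHom).map π.toAddMonoidHom).FG := by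
      obtain ⟨T, hT⟩ := fg_comap _ hinj hV'fg
      exact ⟨T.image π.toAddMonoidHom, by rw [Finset.coe_image, ← AddMonoidHom.map_closure, hT]⟩
    refine ⟨(V'.comap (O.subtype : O →+* F).toAddMonoidHom).map π.toAddMonoidHom, hfg, ?_⟩
    rintro _ ⟨s, rfl⟩ i j
    rw [hσ]
    refine ⟨ψ0 s i j, ?_, rfl⟩
    exact hV' _ (hV (s : GL (Fin 2) F) s.2) i j
  · intro s hs
    obtain ⟨ht, hd⟩ := int_two _ (int_of_bd S hS (s : GL (Fin 2) F) s.2)
    obtain ⟨n, hn⟩ := hF.pl_int ht
    obtain ⟨d, hd⟩ := hF.pl_int hd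
    have emap : (O.subtype : O →+* F).mapMatrix (ψ0 s) =
        ((P⁻¹ : GL (Fin 2) F) : Matrix (Fin 2) (Fin 2) F) *
        ((s : GL (Fin 2) F) : Matrix (Fin 2) (Fin 2) F) * (P : Matrix (Fin 2) (Fin 2) F) := rfl
    have eπ : π.mapMatrix (ψ0 s) = 1 := by
      have h1 : (σ s : Matrix (Fin 2) (Fin 2) ℚ) = π.mapMatrix (ψ0 s) := rfl
      rw [← h1, hs]
      rfl
    have etr : (((ψ0 s).trace : O) : F) =
        ((s : GL (Fin 2) F) : Matrix (Fin 2) (Fin 2) F).trace := by
      have h1 : (O.subtype : O →+* F) ((ψ0 s).trace) =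
          ((O.subtype : O →+* F).mapMatrix (ψ0 s)).trace := by
        simp [Matrix.trace]
      rw [emap, mul_assoc, Matrix.trace_mul_comm, mul_assoc, ← Units.val_mul, mul_inv_cancel,
        Units.val_one, mul_one] at h1
      exact h1
    have edet : (((ψ0 s).det : O) : F) =
        ((s : GL (Fin 2) F) : Matrix (Fin 2) (Fin 2) F).det := by
      have h1 : (O.subtype : O →+* F) ((ψ0 s).det) =
          ((O.subtype : O →+* F).mapMatrix (ψ0 s)).det := RingHom.map_det _ _
      rw [emap, Matrix.det_mul, Matrix.det_mul, mul_comm, ← mul_assoc, ← Matrix.det_mul,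
        ← Units.val_mul, mul_inv_cancel, Units.val_one, Matrix.det_one, one_mul] at h1
      exact h1
    have ptr : π ((ψ0 s).trace) = 2 := by
      have h1 : π ((ψ0 s).trace) = (π.mapMatrix (ψ0 s)).trace := by
        simp [Matrix.trace]
      rw [h1, eπ, Matrix.trace_one]
      norm_num
    have pdet : π ((ψ0 s).det) = 1 := by
      rw [RingHom.map_det, eπ, Matrix.det_one]
    rw [hn] at etr
    rw [hd] at edet
    have e1 : (ψ0 s).trace = (n : O) := by
      apply Subtype.ext
      rw [etr]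
      simp
    have e2 : (ψ0 s).det = (d : O) := by
      apply Subtype.ext
      rw [edet]
      simp
    rw [e1, map_intCast] at ptr
    rw [e2, map_intCast] at pdet
    have n2 : n = 2 := by exact_mod_cast ptr
    have d1 : d = 1 := by exact_mod_cast pdet
    rw [hn, hd, n2, d1]
    constructor <;> norm_num

end Pool.Agent.Lib.LinQ
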